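import Pool.Agent.MK.AAttach

/-!
# MKA-Absorb: attaching the last vertices

Plan. Induction on `(univ \ W).card` (generalising `H`, `W`, `R`). If `W = univ` take `H' = H`.
Otherwise pick `v ∉ W`; by `hR` some `T ∈ R` has `T ⊆` neighbours of `v` (the filter has at least
`(univ \ W).card ≥ 1` elements). `attach` gives `H₁` on `insert v W`. Use the induction hypothesis
with `R.erase T`: its members are free in `H₁` by the last conclusion of `attach`, and for
`u ∉ insert v W` the number of good members is at least `(univ \ W).card - 1 =
(univ \ insert v W).card`.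
-/

open scoped Classical
open Finset

namespace MK

open MZ

variable {V : Type} [Fintype V]

private theorem absorb_aux (G : SimpleGraph V) : ∀ (n : ℕ) (H : SimpleGraph V) (W : Finset V)
    (R : Finset (Finset V)), (univ \ W : Finset V).card = n → St G H W →
    (∀ T ∈ R, Free H W T) →
    (∀ v, v ∉ W → (univ \ W : Finset V).card ≤
      (R.filter (fun T => ∀ t ∈ T, G.Adj v t)).card) →
    ∃ H' : SimpleGraph V, St G H' univ := by
  intro n
  induction n with
  | zero =>
    intro H W R hn hS _ _
    have hW : W = univ := by
      have h0 := Finset.card_eq_zero.mp hn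
      exact Finset.eq_univ_iff_forall.mpr (fun x => by
        by_contra hx
        have : x ∈ (univ \ W : Finset V) := by simp [hx]
        rw [h0] at this
        simp at this)
    exact ⟨H, hW ▸ hS⟩
  | succ n ih =>
    intro H W R hn hS hF hR
    have hne : (univ \ W : Finset V).Nonempty := by
      rw [← Finset.card_pos, hn]; omega
    obtain ⟨v, hv⟩ := hne
    have hvW : v ∉ W := by simpa using hv
    have h1 := hR v hvW
    have hpos : 0 < (R.filter (fun T => ∀ t ∈ T, G.Adj v t)).card := by omega
    obtain ⟨T, hT⟩ := Finset.card_pos.mp hpos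
    rw [Finset.mem_filter] at hT
    obtain ⟨hTR, hTv⟩ := hT
    obtain ⟨H1, hS1, _, hF1⟩ := attach hS (hF T hTR) hvW hTv
    have hcard : (univ \ insert v W : Finset V).card = n := by
      have h2 : (univ \ insert v W : Finset V) = (univ \ W : Finset V).erase v := by
        ext x
        simp only [mem_sdiff, mem_univ, true_and, mem_insert, mem_erase, not_or]
      rw [h2, Finset.card_erase_of_mem hv, hn]
      rfl
    refine ih H1 (insert v W) (R.erase T) hcard hS1 ?_ ?_
    · intro T' hT'
      rw [Finset.mem_erase] at hT'
      exact hF1 T' hT'.1 (hF T' hT'.2)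
    · intro u hu
      have huW : u ∉ W := fun h => hu (Finset.mem_insert_of_mem h)
      have h3 := hR u huW
      have h4 : (R.filter (fun T => ∀ t ∈ T, G.Adj u t)).erase T ⊆
          (R.erase T).filter (fun T => ∀ t ∈ T, G.Adj u t) := by
        intro S hS'
        rw [Finset.mem_erase, Finset.mem_filter] at hS'
        rw [Finset.mem_filter, Finset.mem_erase]
        exact ⟨⟨hS'.1, hS'.2.1⟩, hS'.2.2⟩
      have h5 := Finset.card_le_card h4
      have h6 := Finset.pred_card_le_card_erase (s := R.filter (fun T => ∀ t ∈ T, G.Adj u t))
        (a := T)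
      omega

theorem absorb {G H : SimpleGraph V} {W : Finset V} (hS : St G H W) (R : Finset (Finset V))
    (hF : ∀ T ∈ R, Free H W T)
    (hR : ∀ v, v ∉ W → (univ \ W : Finset V).card ≤
      (R.filter (fun T => ∀ t ∈ T, G.Adj v t)).card) :
    ∃ H' : SimpleGraph V, St G H' univ :=
  absorb_aux G _ H W R rfl hS hF hR

end MK
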