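import Pool.Agent.MK.ADefs

/-!
# MKA-Attach: one attachment step

Plan. Put `H' := H ⊔ SimpleGraph.fromEdgeSet {e | ∃ t ∈ T, e = s(v, t)}`, or more conveniently the
graph with `Adj a b := H.Adj a b ∨ (a = v ∧ b ∈ T) ∨ (b = v ∧ a ∈ T)` (symmetric; irreflexive since
`v ∉ W ⊇ T`). Facts: (1) `H ≤ H'`, `H' ≤ G` (hypothesis `hG`), the edges of `H'` lie in
`insert v W`; (2) for `a b ∈ W`: `H'.Adj a b ↔ H.Adj a b` (as `a, b ≠ v`); for `w ∈ W`:
`H'.Adj v w ↔ w ∈ T` (an edge of `H` at `v` is impossible by `St.supp`); (3) `IsTree3 H' W`: general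
lemma, by induction on `IsTree3 H W`: if two graphs agree on `W` then `IsTree3` transfers
(`IsNClique` of subsets of `W` agree). Hence `IsTree3 H' (insert v W)` by `IsTree3.step`.
(4) The number of `u` in `insert v W` adjacent (in `H'`) to all of a triangle:
- for a 3-clique `T'` of `H` inside `W`: `v` counts iff `T' ⊆ T` iff `T' = T` (cardinalities), the
  `u ∈ W` are the old ones; so it is the old number, plus one if `T' = T`;
- for a 3-clique `T'` of `H'` with `v ∈ T'`: `T'.erase v ⊆ T` (neighbours of `v`), a vertex `u`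
  adjacent to all of `T'` is adjacent to `v`, so lies in `T` and not in `T'.erase v`: exactly one
  choice, so the number is at most one.
(5) `Thin H' (insert v W)`: a 3-clique of `H'` inside `insert v W` either contains `v` (number at
most 1) or is a 3-clique of `H` inside `W` (old number at most 3, and for `T` at most 2 + 1).
(6) the three conclusions: `insert v (T.erase x)` is a 3-clique of `H'` containing `v`; `T'` as in
(4).
-/

open scoped Classical
open Finset

namespace MK

open MZ

variable {V : Type} [Fintype V]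

omit [Fintype V] in
private theorem clique_congr {H H' : SimpleGraph V} {n : ℕ} {s : Finset V}
    (h : ∀ a ∈ s, ∀ b ∈ s, (H'.Adj a b ↔ H.Adj a b)) : H'.IsNClique n s ↔ H.IsNClique n s := by
  rw [SimpleGraph.isNClique_iff, SimpleGraph.isNClique_iff]
  refine and_congr_left fun _ => ?_
  rw [SimpleGraph.isClique_iff, SimpleGraph.isClique_iff]
  constructor
  · intro h1 a ha b hb hab
    exact (h a ha b hb).1 (h1 ha hb hab)
  · intro h1 a ha b hb hab
    exact (h a ha b hb).2 (h1 ha hb hab)

omit [Fintype V] in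
private theorem tree_congr {H H' : SimpleGraph V} {W : Finset V} (ht : IsTree3 H W) :
    (∀ a ∈ W, ∀ b ∈ W, (H'.Adj a b ↔ H.Adj a b)) → IsTree3 H' W := by
  induction ht with
  | base s hs =>
    intro h
    exact IsTree3.base s ((clique_congr h).2 hs)
  | step W T v _ hTW hTc hv hadj ih =>
    intro h
    refine IsTree3.step W T v (ih ?_) hTW ?_ hv ?_
    · intro a ha b hb
      exact h a (mem_insert_of_mem ha) b (mem_insert_of_mem hb)
    · refine (clique_congr ?_).2 hTc
      intro a ha b hb
      exact h a (mem_insert_of_mem (hTW ha)) b (mem_insert_of_mem (hTW hb))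
    · intro w hw
      rw [h v (mem_insert_self v W) w (mem_insert_of_mem hw)]
      exact hadj w hw

theorem attach {G H : SimpleGraph V} {W T : Finset V} {v : V} (hS : St G H W) (hT : Free H W T)
    (hv : v ∉ W) (hG : ∀ t ∈ T, G.Adj v t) :
    ∃ H' : SimpleGraph V, St G H' (insert v W) ∧
      (∀ x ∈ T, Free H' (insert v W) (insert v (T.erase x))) ∧
      (∀ T', T' ≠ T → Free H W T' → Free H' (insert v W) T') := by
  obtain ⟨hTW, hTc, hT2⟩ := hT
  have hvT : v ∉ T := fun h => hv (hTW h)
  obtain ⟨H', hadj⟩ : ∃ H' : SimpleGraph V,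
      ∀ a b, H'.Adj a b ↔ H.Adj a b ∨ (a = v ∧ b ∈ T) ∨ (b = v ∧ a ∈ T) := by
    refine ⟨{ Adj := fun a b => H.Adj a b ∨ (a = v ∧ b ∈ T) ∨ (b = v ∧ a ∈ T)
              symm := ⟨?_⟩
              loopless := ⟨?_⟩ }, fun _ _ => Iff.rfl⟩
    · intro a b h
      rcases h with h | h | h
      · exact Or.inl h.symm
      · exact Or.inr (Or.inr h)
      · exact Or.inr (Or.inl h)
    · intro a h
      rcases h with h | h | h
      · exact H.irrefl h
      · exact hvT (h.1 ▸ h.2)
      · exact hvT (h.1 ▸ h.2)
  have hadjv : ∀ w, H'.Adj v w ↔ w ∈ T := by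
    intro w
    rw [hadj]
    constructor
    · rintro (h | h | h)
      · exact absurd (hS.supp v w h).1 hv
      · exact h.2
      · exact absurd h.2 hvT
    · intro h
      exact Or.inr (Or.inl ⟨rfl, h⟩)
  have hadjW : ∀ a ∈ W, ∀ b ∈ W, (H'.Adj a b ↔ H.Adj a b) := by
    intro a ha b hb
    rw [hadj]
    constructor
    · rintro (h | h | h)
      · exact h
      · exact absurd (h.1 ▸ ha) hv
      · exact absurd (h.1 ▸ hb) hv
    · exact Or.inl
  have hcl : ∀ T' : Finset V, T' ⊆ W → (H'.IsNClique 3 T' ↔ H.IsNClique 3 T') := by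
    intro T' hT'
    exact clique_congr fun a ha b hb => hadjW a (hT' ha) b (hT' hb)
  have hTcard : T.card = 3 := hTc.card_eq
  -- counting for triangles through `v`
  have hcv : ∀ T' : Finset V, H'.IsNClique 3 T' → v ∈ T' →
      ((insert v W).filter (fun u => ∀ t ∈ T', H'.Adj u t)).card ≤ 1 := by
    intro T' hT' hvT'
    have hsub : T'.erase v ⊆ T := by
      intro t ht
      rw [mem_erase] at ht
      exact (hadjv t).1 (hT'.isClique hvT' ht.2 (Ne.symm ht.1))
    have hcard : (T'.erase v).card = 2 := by
      rw [card_erase_of_mem hvT', hT'.card_eq]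
    have h1 : (insert v W).filter (fun u => ∀ t ∈ T', H'.Adj u t) ⊆ T \ T'.erase v := by
      intro u hu
      rw [mem_filter] at hu
      rw [mem_sdiff, mem_erase]
      refine ⟨(hadjv u).1 (hu.2 v hvT').symm, ?_⟩
      rintro ⟨_, h2⟩
      exact H'.irrefl (hu.2 u h2)
    have h2 := card_le_card h1
    rw [card_sdiff_of_subset hsub, hcard, hTcard] at h2
    exact h2
  -- counting for old triangles
  have hco : ∀ T' : Finset V, T' ⊆ W → T' ≠ T → H.IsNClique 3 T' →
      ((insert v W).filter (fun u => ∀ t ∈ T', H'.Adj u t)).card ≤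
        (W.filter (fun u => ∀ t ∈ T', H.Adj u t)).card := by
    intro T' hT'W hne hT'
    refine card_le_card ?_
    intro u hu
    rw [mem_filter, mem_insert] at hu
    rw [mem_filter]
    rcases hu.1 with h | h
    · exfalso
      subst h
      apply hne
      refine eq_of_subset_of_card_le (fun t ht => (hadjv t).1 (hu.2 t ht)) ?_
      rw [hTcard, hT'.card_eq]
    · exact ⟨h, fun t ht => (hadjW u h t (hT'W ht)).1 (hu.2 t ht)⟩
  have hcT : ((insert v W).filter (fun u => ∀ t ∈ T, H'.Adj u t)).card ≤ 3 := by
    have h1 : (insert v W).filter (fun u => ∀ t ∈ T, H'.Adj u t) ⊆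
        insert v (W.filter (fun u => ∀ t ∈ T, H.Adj u t)) := by
      intro u hu
      rw [mem_filter, mem_insert] at hu
      rw [mem_insert, mem_filter]
      rcases hu.1 with h | h
      · exact Or.inl h
      · exact Or.inr ⟨h, fun t ht => (hadjW u h t (hTW ht)).1 (hu.2 t ht)⟩
    have h2 := card_le_card h1
    have h3 := card_insert_le v (W.filter (fun u => ∀ t ∈ T, H.Adj u t))
    omega
  refine ⟨H', ⟨?_, ?_, ?_, ?_⟩, ?_, ?_⟩
  · intro a b h
    rcases (hadj a b).1 h with h | h | h
    · exact hS.le h
    · rw [h.1]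
      exact hG b h.2
    · rw [h.1]
      exact (hG a h.2).symm
  · intro a b h
    rcases (hadj a b).1 h with h | h | h
    · exact ⟨mem_insert_of_mem (hS.supp a b h).1, mem_insert_of_mem (hS.supp a b h).2⟩
    · rw [h.1]
      exact ⟨mem_insert_self v W, mem_insert_of_mem (hTW h.2)⟩
    · rw [h.1]
      exact ⟨mem_insert_of_mem (hTW h.2), mem_insert_self v W⟩
  · exact IsTree3.step W T v (tree_congr hS.tree hadjW) hTW ((hcl T hTW).2 hTc) hv
      fun w _ => hadjv w
  · intro T' hT'W hT'
    by_cases hvT' : v ∈ T'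
    · exact (hcv T' hT' hvT').trans (by norm_num)
    · have hT'W' : T' ⊆ W := by
        intro t ht
        rcases mem_insert.1 (hT'W ht) with h | h
        · exact absurd (h ▸ ht) hvT'
        · exact h
      by_cases hTT : T' = T
      · rw [hTT]
        exact hcT
      · have h1 := (hcl T' hT'W').1 hT'
        exact (hco T' hT'W' hTT h1).trans (hS.thin T' hT'W' h1)
  · intro x hx
    have hc : H'.IsNClique 3 (insert v (T.erase x)) := by
      rw [SimpleGraph.isNClique_iff]
      constructor
      · rw [SimpleGraph.isClique_iff]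
        intro a ha b hb hab
        rw [mem_coe, mem_insert, mem_erase] at ha hb
        rcases ha with ha | ha
        · rcases hb with hb | hb
          · exact absurd (ha.trans hb.symm) hab
          · rw [ha]
            exact (hadjv b).2 hb.2
        · rcases hb with hb | hb
          · rw [hb]
            exact ((hadjv a).2 ha.2).symm
          · exact (hadjW a (hTW ha.2) b (hTW hb.2)).2 (hTc.isClique ha.2 hb.2 hab)
      · rw [card_insert_of_notMem (fun h => hvT (mem_of_mem_erase h)), card_erase_of_mem hx, hTcard]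
    refine ⟨?_, hc, (hcv _ hc (mem_insert_self _ _)).trans (by norm_num)⟩
    exact insert_subset_insert v ((erase_subset x T).trans hTW)
  · intro T' hne hF
    obtain ⟨h1, h2, h3⟩ := hF
    exact ⟨h1.trans (subset_insert v W), (hcl T' h1).2 h2, (hco T' h1 hne h2).trans h3⟩

end MK
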