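import Pool.Agent.MZ.Lower

/-!
# MKA: spanning thin 3-trees, definitions
-/

open scoped Classical
open Finset

namespace MK

open MZ

variable {V : Type} [Fintype V]

/-- the common neighbours of four (not necessarily different) vertices -/
noncomputable def cn (G : SimpleGraph V) (x y z v : V) : Finset V :=
  Finset.univ.filter (fun w => G.Adj w x ∧ G.Adj w y ∧ G.Adj w z ∧ G.Adj w v)

/-- a thin 3-tree `H` on `W` inside `G`; all edges of `H` lie in `W` -/
structure St (G H : SimpleGraph V) (W : Finset V) : Prop where
  le : H ≤ G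
  supp : ∀ a b, H.Adj a b → a ∈ W ∧ b ∈ W
  tree : IsTree3 H W
  thin : Thin H W

/-- a triangle of `H` to which one more vertex can be attached -/
def Free (H : SimpleGraph V) (W T : Finset V) : Prop :=
  T ⊆ W ∧ H.IsNClique 3 T ∧ (W.filter (fun v => ∀ t ∈ T, H.Adj v t)).card ≤ 2

end MK
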