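import Pool.Agent.MK.ACount
import Pool.Agent.MK.ADefs

/-!
# MKA-CntM: the graphs in which some four vertices have few common neighbours

Plan. If `(cn G x y z v).card < M` put `Q = {x, y, z, v}` (at most four elements); the vertices
outside `Q` and outside `cn G x y z v` are more than `n - 4 - M`, so there is `A ⊆ univ \ Q` with
`A.card = n - 4 - M` (natural subtraction) all of whose members are not common neighbours of `Q`.
For fixed `(x, y, z, v)` and `A` (disjoint from `Q`) the bundles `E w = Q.image (fun q => s(w, q))`,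
`w ∈ A`, have at most 4 elements, no diagonal element, and are pairwise disjoint (`w, w' ∉ Q`), so
`count_bundles` with `k = 4` gives at most `(15/16)^(n-4-M) * 2^(..)` graphs.
Union bound over `n^4` quadruples and the sets `A` of cardinality `n - 4 - M`: there are
`Nat.choose n (n-4-M)` of them (`Finset.card_powersetCard`).
-/

open scoped Classical
open Finset

namespace MK

open MZ

/-- the four vertices -/
private noncomputable def qq {n : ℕ} (p : Fin n × Fin n × Fin n × Fin n) : Finset (Fin n) :=
  {p.1, p.2.1, p.2.2.1, p.2.2.2}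

private theorem qq_card {n : ℕ} (p : Fin n × Fin n × Fin n × Fin n) : (qq p).card ≤ 4 := by
  unfold qq
  exact Finset.card_le_four

/-- change of the finiteness instance -/
private theorem tr_bound {α : Type} (i1 i2 : Fintype α) (S : Finset α) (Q : α → Prop)
    (c : ℝ) {dQ : DecidablePred Q} (h : ∀ a ∈ S, Q a)
    (hb : (((@Finset.univ α i1).filter Q).card : ℝ) ≤ c * @Fintype.card α i1) :
    (S.card : ℝ) ≤ c * @Fintype.card α i2 := by
  have hi : i1 = i2 := Subsingleton.elim _ _
  subst hi
  refine le_trans ?_ hb
  have h2 : S ⊆ (@Finset.univ α i1).filter Q := fun a ha =>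
    Finset.mem_filter.mpr ⟨Finset.mem_univ _, h a ha⟩
  exact_mod_cast Finset.card_le_card h2

/-- the bad graphs for one quadruple and one set -/
private noncomputable def bad {n : ℕ} (p : Fin n × Fin n × Fin n × Fin n) (A : Finset (Fin n)) :
    Finset (SimpleGraph (Fin n)) :=
  (univ : Finset (SimpleGraph (Fin n))).filter
    (fun G => (∀ w ∈ A, w ∉ qq p) ∧ ∀ w ∈ A, ∃ q ∈ qq p, ¬ G.Adj w q)

private theorem bad_card {n : ℕ} (p : Fin n × Fin n × Fin n × Fin n) (A : Finset (Fin n)) :
    ((bad p A).card : ℝ) ≤ (15 / 16 : ℝ) ^ A.card * Fintype.card (SimpleGraph (Fin n)) := by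
  by_cases hA : ∀ w ∈ A, w ∉ qq p
  · have h := count_bundles (V := Fin n) A (fun w => (qq p).image (fun q => s(w, q))) 4
      (fun w _ => Finset.card_image_le.trans (qq_card p))
      (by
        intro w hw e he
        obtain ⟨q, hq, rfl⟩ := Finset.mem_image.mp he
        intro hd
        have : w = q := by simpa using hd
        exact hA w hw (this ▸ hq))
      (by
        intro w hw w' hw' hne
        rw [Finset.disjoint_left]
        intro e he he'
        obtain ⟨q, hq, rfl⟩ := Finset.mem_image.mp he
        obtain ⟨q', hq', h⟩ := Finset.mem_image.mp he'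
        rcases Sym2.eq_iff.mp h with ⟨h1, _⟩ | ⟨h1, _⟩
        · exact hne h1.symm
        · exact hA w' hw' (h1 ▸ hq))
    have h2 : (1 - (1 / 2 : ℝ) ^ 4) = 15 / 16 := by norm_num
    rw [h2] at h
    exact tr_bound _ _ _ _ _ (fun G hG w hw => by
      obtain ⟨q, hq, hn⟩ := (Finset.mem_filter.mp hG).2.2 w hw
      exact ⟨s(w, q), Finset.mem_image.mpr ⟨q, hq, rfl⟩, by
        rw [SimpleGraph.mem_edgeSet]; exact hn⟩) h
  · have h0 : bad p A = ∅ := by
      unfold bad
      refine Finset.filter_eq_empty_iff.mpr ?_
      intro G _ hG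
      exact hA hG.1
    rw [h0]
    simp only [Finset.card_empty, Nat.cast_zero]
    positivity

theorem count_M (n M : ℕ) :
    (((univ : Finset (SimpleGraph (Fin n))).filter
        (fun G => ∃ x y z v : Fin n, (cn G x y z v).card < M)).card : ℝ) ≤
      (n : ℝ) ^ 4 * (Nat.choose n (n - 4 - M) : ℝ) * (15 / 16 : ℝ) ^ (n - 4 - M) *
        Fintype.card (SimpleGraph (Fin n)) := by
  set K : ℕ := n - 4 - M with hK
  set I : Finset ((Fin n × Fin n × Fin n × Fin n) × Finset (Fin n)) :=
    (univ : Finset (Fin n × Fin n × Fin n × Fin n)) ×ˢ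
      (Finset.powersetCard K (univ : Finset (Fin n))) with hI
  have hIcard : I.card = n ^ 4 * Nat.choose n K := by
    rw [hI, Finset.card_product, Finset.card_powersetCard]
    simp only [Finset.card_univ, Fintype.card_prod, Fintype.card_fin]
    ring
  have hsub : (univ : Finset (SimpleGraph (Fin n))).filter
        (fun G => ∃ x y z v : Fin n, (cn G x y z v).card < M) ⊆
      I.biUnion (fun i => bad i.1 i.2) := by
    intro G hG
    obtain ⟨x, y, z, v, hlt⟩ := (Finset.mem_filter.mp hG).2
    set p : Fin n × Fin n × Fin n × Fin n := (x, y, z, v) with hp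
    have hc : K ≤ ((univ : Finset (Fin n)) \ (qq p ∪ cn G x y z v)).card := by
      have h1 := Finset.le_card_sdiff (qq p ∪ cn G x y z v) (univ : Finset (Fin n))
      have h2 := Finset.card_union_le (qq p) (cn G x y z v)
      have h3 := qq_card p
      rw [Finset.card_univ, Fintype.card_fin] at h1
      omega
    obtain ⟨A, hAs, hAc⟩ := Finset.exists_subset_card_eq hc
    refine Finset.mem_biUnion.mpr ⟨(p, A), ?_, ?_⟩
    · rw [hI]
      refine Finset.mem_product.mpr ⟨Finset.mem_univ _, ?_⟩
      exact Finset.mem_powersetCard.mpr ⟨Finset.subset_univ _, hAc⟩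
    · refine Finset.mem_filter.mpr ⟨Finset.mem_univ _, ?_, ?_⟩
      · intro w hw hq
        have := (Finset.mem_sdiff.mp (hAs hw)).2
        exact this (Finset.mem_union_left _ hq)
      · intro w hw
        by_contra hcon
        push Not at hcon
        have h1 := (Finset.mem_sdiff.mp (hAs hw)).2
        apply h1
        refine Finset.mem_union_right _ ?_
        refine Finset.mem_filter.mpr ⟨Finset.mem_univ _, ?_, ?_, ?_, ?_⟩
        · exact hcon x (by simp [qq, hp])
        · exact hcon y (by simp [qq, hp])
        · exact hcon z (by simp [qq, hp])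
        · exact hcon v (by simp [qq, hp])
  have h1 : (((univ : Finset (SimpleGraph (Fin n))).filter
        (fun G => ∃ x y z v : Fin n, (cn G x y z v).card < M)).card : ℝ) ≤
      ∑ i ∈ I, ((bad i.1 i.2).card : ℝ) := by
    have h2 := (Finset.card_le_card hsub).trans Finset.card_biUnion_le
    exact_mod_cast h2
  refine h1.trans ?_
  have h3 : ∀ i ∈ I, ((bad i.1 i.2).card : ℝ) ≤
      (15 / 16 : ℝ) ^ K * Fintype.card (SimpleGraph (Fin n)) := by
    intro i hi
    have h4 := bad_card i.1 i.2
    have h5 : i.2.card = K := (Finset.mem_powersetCard.mp (Finset.mem_product.mp hi).2).2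
    rw [h5] at h4
    exact h4
  refine (Finset.sum_le_sum h3).trans ?_
  rw [Finset.sum_const, nsmul_eq_mul, hIcard]
  push_cast
  apply le_of_eq
  ring

end MK
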