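import Pool.Agent.MK.ACount
import Pool.Agent.MK.ADefs

/-!
# MKA-CntP: the graphs without the attachment property

Plan. If the property fails for `G` there are `F` and `S`. For fixed `(F, S)` (pairwise disjoint
triples, `S` disjoint from all of them, `S.card = s`) the bundles
`E (v, j) = (F j).image (fun a => s(v, a))`, `(v, j) ∈ S ×ˢ univ`, have at most 3 elements, no diagonal
element (`v ∉ F j`) and are pairwise disjoint (`s(v, a) = s(v', a')` with `v, v' ∈ S`, `a, a' ∉ S`
forces `v = v'` and `a = a'`, hence `j = j'`). So `count_bundles` with `k = 3` gives at most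
`(7/8)^(s t) * 2^(..)` graphs. The number of pairs `(F, S)`: `F` is determined by a function
`Fin t → Fin n × Fin n × Fin n` (enumerate each triple), `S` by a function `Fin s → Fin n`; hence at
most `n^(3 t) * n^s` pairs. (Do the union bound over these codes: for a code `(f, g)` put
`F j = {(f j).1, (f j).2.1, (f j).2.2}` and `S = univ.image g`.)
-/

open scoped Classical
open Finset

namespace MK

open MZ

/-- the attachment property -/
def PropP {V : Type} (G : SimpleGraph V) (t s : ℕ) : Prop :=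
  ∀ (F : Fin t → Finset V) (S : Finset V), (∀ j, (F j).card = 3) →
      (∀ i j, i ≠ j → Disjoint (F i) (F j)) → S.card = s → (∀ j, Disjoint S (F j)) →
      ∃ v ∈ S, ∃ j, ∀ a ∈ F j, G.Adj v a

/-- the triples of a code -/
private noncomputable def cF {n t : ℕ} (f : Fin t → Fin n × Fin n × Fin n) (j : Fin t) :
    Finset (Fin n) := {(f j).1, (f j).2.1, (f j).2.2}

/-- the centres of a code -/
private noncomputable def cS {n s : ℕ} (g : Fin s → Fin n) : Finset (Fin n) :=
  (univ : Finset (Fin s)).image g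

/-- the admissible families -/
private def Adm {n t : ℕ} (s : ℕ) (F : Fin t → Finset (Fin n)) (S : Finset (Fin n)) : Prop :=
  (∀ j, (F j).card = 3) ∧ (∀ i j, i ≠ j → Disjoint (F i) (F j)) ∧ S.card = s ∧
    (∀ j, Disjoint S (F j))

private theorem bun_disj {n t : ℕ} (F : Fin t → Finset (Fin n)) (S : Finset (Fin n))
    (hmem : ∀ v ∈ S, ∀ j, v ∉ F j) (h2 : ∀ i j, i ≠ j → Disjoint (F i) (F j))
    (p q : Fin n × Fin t) (hq : q.1 ∈ S) (hpq : p ≠ q) :
    Disjoint ((F p.2).image (fun a => s(p.1, a))) ((F q.2).image (fun a => s(q.1, a))) := by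
  rw [Finset.disjoint_left]
  intro e he he'
  rw [Finset.mem_image] at he he'
  obtain ⟨a, ha, rfl⟩ := he
  obtain ⟨a', ha', hee⟩ := he'
  rw [Sym2.eq_iff] at hee
  rcases hee with ⟨e1, e2⟩ | ⟨e1, e2⟩
  · rw [e2] at ha'
    have hj : p.2 = q.2 := by
      by_contra hne
      exact (Finset.disjoint_left.1 (h2 _ _ hne)) ha ha'
    exact hpq (Prod.ext e1.symm hj)
  · rw [e1] at hq
    exact hmem _ hq _ ha

private theorem bun_diag {n t : ℕ} (F : Fin t → Finset (Fin n)) (S : Finset (Fin n))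
    (hmem : ∀ v ∈ S, ∀ j, v ∉ F j) (p : Fin n × Fin t) (hp : p.1 ∈ S) (e : Sym2 (Fin n))
    (he : e ∈ (F p.2).image (fun a => s(p.1, a))) : ¬ e.IsDiag := by
  rw [Finset.mem_image] at he
  obtain ⟨a, ha, rfl⟩ := he
  rw [Sym2.mk_isDiag_iff]
  rintro rfl
  exact hmem _ hp _ ha

private theorem mfil {α : Type*} {s : Finset α} {P : α → Prop} {i : DecidablePred P} {a : α} :
    a ∈ @Finset.filter α P i s ↔ a ∈ s ∧ P a := Finset.mem_filter

private theorem count_bundles' {V : Type} [Fintype V] [inst : Fintype (SimpleGraph V)] {ι : Type}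
    (I : Finset ι) (E : ι → Finset (Sym2 V)) (k : ℕ) (hk : ∀ i ∈ I, (E i).card ≤ k)
    (hd : ∀ i ∈ I, ∀ e ∈ E i, ¬ e.IsDiag)
    (hdisj : ∀ i ∈ I, ∀ j ∈ I, i ≠ j → Disjoint (E i) (E j)) :
    (((univ : Finset (SimpleGraph V)).filter
        (fun G => ∀ i ∈ I, ∃ e ∈ E i, e ∉ G.edgeSet)).card : ℝ) ≤
      (1 - (1 / 2 : ℝ) ^ k) ^ I.card * Fintype.card (SimpleGraph V) := by
  have h := count_bundles I E k hk hd hdisj
  have e : inst = instFintypeSimpleGraphOfDecidableEq := Subsingleton.elim _ _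
  subst e
  exact h

private theorem count_one {n t s : ℕ} (F : Fin t → Finset (Fin n)) (S : Finset (Fin n))
    (h : Adm s F S) :
    (((univ : Finset (SimpleGraph (Fin n))).filter
      (fun G => ∀ v ∈ S, ∀ j, ∃ a ∈ F j, ¬ G.Adj v a)).card : ℝ) ≤
      (7 / 8 : ℝ) ^ (t * s) * Fintype.card (SimpleGraph (Fin n)) := by
  obtain ⟨h1, h2, h3, h4⟩ := h
  have hmem : ∀ v ∈ S, ∀ j, v ∉ F j := fun v hv j hj =>
    (Finset.disjoint_left.1 (h4 j)) hv hj
  have key := count_bundles' (V := Fin n) (S ×ˢ (univ : Finset (Fin t)))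
    (fun p => (F p.2).image (fun a => s(p.1, a))) 3
    (fun p _ => (Finset.card_image_le).trans (h1 p.2).le)
    (fun p hp e he => bun_diag F S hmem p (Finset.mem_product.1 hp).1 e he)
    (fun p _ q hq hpq => bun_disj F S hmem h2 p q (Finset.mem_product.1 hq).1 hpq)
  have hc : (S ×ˢ (univ : Finset (Fin t))).card = t * s := by
    rw [Finset.card_product, h3, Finset.card_univ, Fintype.card_fin, mul_comm]
  rw [hc] at key
  have h78 : (1 - (1 / 2 : ℝ) ^ 3) = 7 / 8 := by norm_num
  rw [h78] at key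
  refine (Nat.cast_le.2 (Finset.card_le_card fun G hG => ?_)).trans key
  replace hG := mfil.1 hG
  refine mfil.2 ⟨Finset.mem_univ _, fun p hp => ?_⟩
  obtain ⟨a, ha, hna⟩ := hG.2 p.1 (Finset.mem_product.1 hp).1 p.2
  refine ⟨s(p.1, a), Finset.mem_image_of_mem _ ha, ?_⟩
  rw [SimpleGraph.mem_edgeSet]
  exact hna

theorem count_P (n t s : ℕ) :
    (((univ : Finset (SimpleGraph (Fin n))).filter (fun G => ¬ PropP G t s)).card : ℝ) ≤
      (n : ℝ) ^ (3 * t + s) * (7 / 8 : ℝ) ^ (t * s) * Fintype.card (SimpleGraph (Fin n)) := by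
  set C : Finset ((Fin t → Fin n × Fin n × Fin n) × (Fin s → Fin n)) :=
    univ.filter (fun c => Adm s (cF c.1) (cS c.2)) with hC
  have hsub : (univ : Finset (SimpleGraph (Fin n))).filter (fun G => ¬ PropP G t s) ⊆
      C.biUnion (fun c => (univ : Finset (SimpleGraph (Fin n))).filter
        (fun G => ∀ v ∈ cS c.2, ∀ j, ∃ a ∈ cF c.1 j, ¬ G.Adj v a)) := by
    intro G hG
    have h1 := (mfil.1 hG).2
    unfold PropP at h1
    push Not at h1
    obtain ⟨F, S, hF, hd, hS, hSF, hG2⟩ := h1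
    have hx : ∀ j, ∃ x y z, F j = {x, y, z} := by
      intro j
      obtain ⟨x, y, z, -, -, -, h⟩ := Finset.card_eq_three.1 (hF j)
      exact ⟨x, y, z, h⟩
    choose x y z hxyz using hx
    have hFf : cF (fun j => (x j, y j, z j)) = F := by
      funext j
      rw [hxyz j]
      rfl
    have hSg : cS (fun i => S.orderEmbOfFin hS i) = S := by
      unfold cS
      exact Finset.image_orderEmbOfFin_univ S hS
    rw [Finset.mem_biUnion]
    refine ⟨(fun j => (x j, y j, z j), fun i => S.orderEmbOfFin hS i), ?_, ?_⟩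
    · refine mfil.2 ⟨mem_univ _, ?_⟩
      change Adm s (cF (fun j => (x j, y j, z j))) (cS (fun i => S.orderEmbOfFin hS i))
      rw [hFf, hSg]
      exact ⟨hF, hd, hS, hSF⟩
    · refine mfil.2 ⟨mem_univ _, ?_⟩
      change ∀ v ∈ cS (fun i => S.orderEmbOfFin hS i), ∀ j,
        ∃ a ∈ cF (fun j => (x j, y j, z j)) j, ¬ G.Adj v a
      rw [hFf, hSg]
      exact hG2
  have hcard : (C.card : ℝ) ≤ (n : ℝ) ^ (3 * t + s) := by
    have h1 : C.card ≤ (univ : Finset ((Fin t → Fin n × Fin n × Fin n) × (Fin s → Fin n))).card :=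
      Finset.card_le_card (Finset.filter_subset _ _)
    rw [Finset.card_univ] at h1
    simp only [Fintype.card_prod, Fintype.card_fun, Fintype.card_fin] at h1
    have h2 : (n * (n * n)) ^ t * n ^ s = n ^ (3 * t + s) := by
      rw [pow_add, pow_mul]
      congr 2
      ring
    rw [h2] at h1
    exact_mod_cast h1
  calc (((univ : Finset (SimpleGraph (Fin n))).filter (fun G => ¬ PropP G t s)).card : ℝ)
      ≤ ((C.biUnion (fun c => (univ : Finset (SimpleGraph (Fin n))).filter
        (fun G => ∀ v ∈ cS c.2, ∀ j, ∃ a ∈ cF c.1 j, ¬ G.Adj v a))).card : ℝ) := by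
        exact_mod_cast Finset.card_le_card hsub
    _ ≤ ∑ c ∈ C, (((univ : Finset (SimpleGraph (Fin n))).filter
        (fun G => ∀ v ∈ cS c.2, ∀ j, ∃ a ∈ cF c.1 j, ¬ G.Adj v a)).card : ℝ) := by
        exact_mod_cast Finset.card_biUnion_le
    _ ≤ ∑ c ∈ C, ((7 / 8 : ℝ) ^ (t * s) * Fintype.card (SimpleGraph (Fin n))) := by
        refine Finset.sum_le_sum fun c hc => ?_
        exact count_one _ _ (mfil.1 hc).2
    _ = C.card * ((7 / 8 : ℝ) ^ (t * s) * Fintype.card (SimpleGraph (Fin n))) := by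
        rw [Finset.sum_const, nsmul_eq_mul]
    _ ≤ (n : ℝ) ^ (3 * t + s) * ((7 / 8 : ℝ) ^ (t * s) * Fintype.card (SimpleGraph (Fin n))) :=
        mul_le_mul_of_nonneg_right hcard (by positivity)
    _ = _ := by ring

end MK
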