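import Mathlib

/-!
# MKA-Count: graphs that contain none of some pairwise disjoint small sets of edges

Plan. Induction on the finset `I`. Step for `j ∉ I`: let `A` be the set of graphs for `I`, `B` the
set for `insert j I` (`B ⊆ A`). The map `A → (A \ B) × (E j).powerset`,
`G ↦ (G ⊔ fromEdgeSet (E j), (E j).filter (· ∈ G.edgeSet))` is injective: the edge set of
`G ⊔ fromEdgeSet (E j)` is `G.edgeSet ∪ E j` (the elements of `E j` are not diagonal), so `G.edgeSet`
is recovered as `(that \ E j) ∪ second component`. It lands in `A \ B`: the new graph contains all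
of `E j`, and for `i ∈ I` an edge of `E i` missing in `G` is not in `E j` (disjointness), hence still
missing. So `|A| ≤ 2^|E j| |A \ B| ≤ 2^k (|A| - |B|)`, i.e. `|B| ≤ (1 - 2^{-k}) |A|`.
-/

open scoped Classical
open Finset

namespace MK

private theorem mem_sup_edge {V : Type} [Fintype V] (G : SimpleGraph V) (S : Finset (Sym2 V))
    (hS : ∀ e ∈ S, ¬ e.IsDiag) (e : Sym2 V) :
    e ∈ (G ⊔ SimpleGraph.fromEdgeSet (S : Set (Sym2 V))).edgeSet ↔ e ∈ G.edgeSet ∨ e ∈ S := by
  rw [SimpleGraph.edgeSet_sup, SimpleGraph.edgeSet_fromEdgeSet, Set.mem_union, Set.mem_sdiff,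
    Finset.mem_coe]
  constructor
  · rintro (h | h)
    · exact Or.inl h
    · exact Or.inr h.1
  · rintro (h | h)
    · exact Or.inl h
    · exact Or.inr ⟨h, hS e h⟩

private theorem step {V : Type} [Fintype V] (P : SimpleGraph V → Prop) [DecidablePred P]
    (S : Finset (Sym2 V)) [DecidablePred fun G : SimpleGraph V => P G ∧ ∃ e ∈ S, e ∉ G.edgeSet]
    (hS : ∀ e ∈ S, ¬ e.IsDiag)
    (hP : ∀ G, P G → P (G ⊔ SimpleGraph.fromEdgeSet (S : Set (Sym2 V)))) (k : ℕ) (hk : S.card ≤ k) :
    (((univ : Finset (SimpleGraph V)).filter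
        (fun G => P G ∧ ∃ e ∈ S, e ∉ G.edgeSet)).card : ℝ) ≤
      (1 - (1 / 2 : ℝ) ^ k) * ((univ : Finset (SimpleGraph V)).filter P).card := by
  set A := (univ : Finset (SimpleGraph V)).filter P with hA
  set B := (univ : Finset (SimpleGraph V)).filter (fun G => P G ∧ ∃ e ∈ S, e ∉ G.edgeSet) with hB
  have hBA : B ⊆ A := by
    intro G hG
    simp only [hA, hB, mem_filter, mem_univ, true_and] at hG ⊢
    exact hG.1
  have hinj : A.card ≤ ((A \ B) ×ˢ S.powerset).card := by
    refine Finset.card_le_card_of_injOn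
      (fun G => (G ⊔ SimpleGraph.fromEdgeSet (S : Set (Sym2 V)), S.filter (fun e => e ∈ G.edgeSet)))
      ?_ ?_
    · intro G hG
      have hG' : P G := by simpa [hA] using hG
      simp only [Finset.coe_product, Set.mem_prod, Finset.mem_coe, mem_sdiff, Finset.mem_powerset]
      refine ⟨⟨?_, ?_⟩, filter_subset _ _⟩
      · simp only [hA, mem_filter, mem_univ, true_and]
        exact hP G hG'
      · simp only [hB, mem_filter, mem_univ, true_and, not_and]
        rintro _ ⟨e, he, hne⟩
        exact hne ((mem_sup_edge G S hS e).mpr (Or.inr he))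
    · intro G₁ _ G₂ _ h
      have h1 : G₁ ⊔ SimpleGraph.fromEdgeSet (S : Set (Sym2 V))
          = G₂ ⊔ SimpleGraph.fromEdgeSet (S : Set (Sym2 V)) := congrArg Prod.fst h
      have h2 : S.filter (fun e => e ∈ G₁.edgeSet) = S.filter (fun e => e ∈ G₂.edgeSet) :=
        congrArg Prod.snd h
      rw [← SimpleGraph.edgeSet_inj]
      ext e
      by_cases he : e ∈ S
      · have : e ∈ S.filter (fun e => e ∈ G₁.edgeSet) ↔ e ∈ S.filter (fun e => e ∈ G₂.edgeSet) := by
          rw [h2]
        simpa [he] using this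
      · have a1 := mem_sup_edge G₁ S hS e
        have a2 := mem_sup_edge G₂ S hS e
        rw [h1] at a1
        have := a1.symm.trans a2
        simpa [he] using this
  rw [Finset.card_product, Finset.card_powerset] at hinj
  have hsd : (A \ B).card + B.card = A.card := Finset.card_sdiff_add_card_eq_card hBA
  have hsdR : ((A \ B).card : ℝ) + B.card = A.card := by exact_mod_cast hsd
  have hle : (A \ B).card * 2 ^ S.card ≤ (A \ B).card * 2 ^ k :=
    Nat.mul_le_mul_left _ (Nat.pow_le_pow_right (by norm_num) hk)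
  have h3 : A.card ≤ (A \ B).card * 2 ^ k := le_trans hinj hle
  have h3R : (A.card : ℝ) ≤ (A \ B).card * 2 ^ k := by exact_mod_cast h3
  have hpos : (0 : ℝ) < (1 / 2 : ℝ) ^ k := by positivity
  have h4 : (1 / 2 : ℝ) ^ k * A.card ≤ (A \ B).card := by
    have := mul_le_mul_of_nonneg_left h3R hpos.le
    have e : (1 / 2 : ℝ) ^ k * (((A \ B).card : ℝ) * 2 ^ k) = (A \ B).card := by
      rw [mul_comm ((A \ B).card : ℝ), ← mul_assoc, ← mul_pow]
      norm_num
    linarith
  have : (B.card : ℝ) = A.card - (A \ B).card := by linarith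
  rw [this]
  linarith

theorem count_bundles {V : Type} [Fintype V] {ι : Type} (I : Finset ι)
    (E : ι → Finset (Sym2 V)) (k : ℕ) (hk : ∀ i ∈ I, (E i).card ≤ k)
    (hd : ∀ i ∈ I, ∀ e ∈ E i, ¬ e.IsDiag)
    (hdisj : ∀ i ∈ I, ∀ j ∈ I, i ≠ j → Disjoint (E i) (E j)) :
    (((univ : Finset (SimpleGraph V)).filter
        (fun G => ∀ i ∈ I, ∃ e ∈ E i, e ∉ G.edgeSet)).card : ℝ) ≤
      (1 - (1 / 2 : ℝ) ^ k) ^ I.card * Fintype.card (SimpleGraph V) := by
  induction I using Finset.induction_on with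
  | empty => simp
  | insert j I hj ih =>
    have ih' := ih (fun i hi => hk i (mem_insert_of_mem hi)) (fun i hi => hd i (mem_insert_of_mem hi))
      (fun i hi i' hi' => hdisj i (mem_insert_of_mem hi) i' (mem_insert_of_mem hi'))
    have hs := step (V := V) (fun G => ∀ i ∈ I, ∃ e ∈ E i, e ∉ G.edgeSet) (E j)
      (hd j (mem_insert_self j I)) (by
        intro G hG i hi
        obtain ⟨e, he, hne⟩ := hG i hi
        refine ⟨e, he, ?_⟩
        rw [mem_sup_edge G (E j) (hd j (mem_insert_self j I)) e]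
        rintro (h | h)
        · exact hne h
        · have hij : i ≠ j := fun h' => hj (h' ▸ hi)
          have := hdisj i (mem_insert_of_mem hi) j (mem_insert_self j I) hij
          exact (Finset.disjoint_left.mp this he) h) k (hk j (mem_insert_self j I))
    have e1 : (univ : Finset (SimpleGraph V)).filter
          (fun G => ∀ i ∈ insert j I, ∃ e ∈ E i, e ∉ G.edgeSet)
        = (univ : Finset (SimpleGraph V)).filter
          (fun G => (∀ i ∈ I, ∃ e ∈ E i, e ∉ G.edgeSet) ∧ ∃ e ∈ E j, e ∉ G.edgeSet) := by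
      refine Finset.filter_congr ?_
      intro G _
      rw [Finset.forall_mem_insert]
      exact and_comm
    rw [e1, card_insert_of_notMem hj, pow_succ']
    have hq : (0 : ℝ) ≤ 1 - (1 / 2 : ℝ) ^ k := by
      have : (1 / 2 : ℝ) ^ k ≤ 1 := pow_le_one₀ (by norm_num) (by norm_num)
      linarith
    calc _ ≤ (1 - (1 / 2 : ℝ) ^ k) * _ := hs
      _ ≤ (1 - (1 / 2 : ℝ) ^ k) * ((1 - (1 / 2 : ℝ) ^ k) ^ I.card * Fintype.card (SimpleGraph V)) :=
        mul_le_mul_of_nonneg_left ih' hq
      _ = _ := by ring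

end MK
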