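import Pool.Agent.MK.AAttach

/-!
# MKA-Greedy: attaching almost all vertices

`hP` is the pseudo-random property of `G`: for `t` pairwise disjoint triples `F j` and a set `S` of
`s` further vertices some vertex of `S` is adjacent to all of some triple.

Plan. Induction on `(univ \ W).card` (generalising `H`, `W`, `F`). If `(univ \ W).card ≤ s` take
`H' = H`, `W' = W`. Otherwise choose `S ⊆ univ \ W` with `S.card = s`; `hP` (the `F j` are subsets of
`W`, hence disjoint from `S`; their cardinality is 3 by `Free`) gives `v ∈ S` and `j` with
`G.Adj v a` for all `a ∈ F j`. `attach` (with `T := F j`) gives `H₁` on `insert v W`. Pick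
`x ∈ F j` and put `F' := Function.update F j (insert v ((F j).erase x))`. It is again a family of
free triangles: the new one by `attach`, the others since they are different from `F j` (they are
disjoint from it and nonempty). Pairwise disjoint: `v` is new (not in `W ⊇ F i`) and
`(F j).erase x ⊆ F j`. Disjoint from the members of `R`: the same (members of `R` are subsets of
`W`). The members of `R` stay free: they are disjoint from `F j`, hence different from it.
-/

open scoped Classical
open Finset

namespace MK

open MZ

variable {V : Type} [Fintype V]

theorem greedy {G : SimpleGraph V} {t s : ℕ}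
    (hP : ∀ (F : Fin t → Finset V) (S : Finset V), (∀ j, (F j).card = 3) →
      (∀ i j, i ≠ j → Disjoint (F i) (F j)) → S.card = s → (∀ j, Disjoint S (F j)) →
      ∃ v ∈ S, ∃ j, ∀ a ∈ F j, G.Adj v a)
    {H : SimpleGraph V} {W : Finset V} (hS : St G H W) (F : Fin t → Finset V)
    (hF : ∀ j, Free H W (F j)) (hd : ∀ i j, i ≠ j → Disjoint (F i) (F j))
    (R : Finset (Finset V)) (hR : ∀ T ∈ R, Free H W T) (hRF : ∀ T ∈ R, ∀ j, Disjoint T (F j)) :
    ∃ (H' : SimpleGraph V) (W' : Finset V), St G H' W' ∧ (univ \ W' : Finset V).card ≤ s ∧
      ∀ T ∈ R, Free H' W' T := by
  obtain ⟨n, hn⟩ : ∃ n, (univ \ W : Finset V).card ≤ n := ⟨_, le_rfl⟩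
  induction n generalizing H W F with
  | zero => exact ⟨H, W, hS, by omega, hR⟩
  | succ n ih =>
    by_cases hs : (univ \ W : Finset V).card ≤ s
    · exact ⟨H, W, hS, hs, hR⟩
    · push Not at hs
      obtain ⟨S, hSW, hSc⟩ := Finset.exists_subset_card_eq hs.le
      have hSdisj : ∀ j, Disjoint S (F j) := by
        intro j
        refine Finset.disjoint_left.2 fun a ha ha' => ?_
        have := hSW ha
        rw [Finset.mem_sdiff] at this
        exact this.2 ((hF j).1 ha')
      obtain ⟨v, hvS, j, hadj⟩ := hP F S (fun j => (hF j).2.1.2) hd hSc hSdisj
      have hvW : v ∉ W := (Finset.mem_sdiff.1 (hSW hvS)).2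
      obtain ⟨H', hS', hnew, hold⟩ := attach hS (hF j) hvW hadj
      have hcard3 : (F j).card = 3 := (hF j).2.1.2
      obtain ⟨x, hx⟩ : (F j).Nonempty := by
        rw [← Finset.card_pos]
        omega
      have hne : ∀ T : Finset V, T.Nonempty → Disjoint T (F j) → T ≠ F j := by
        intro T hT hTd hTe
        obtain ⟨y, hy⟩ := hT
        exact Finset.disjoint_left.1 hTd hy (hTe ▸ hy)
      have hFne : ∀ i, (F i).Nonempty := by
        intro i
        rw [← Finset.card_pos, (hF i).2.1.2]
        omega
      have hsub : insert v ((F j).erase x) ⊆ insert v (F j) :=
        Finset.insert_subset_insert _ (Finset.erase_subset _ _)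
      have hdv : ∀ T : Finset V, T ⊆ W → Disjoint T (F j) →
          Disjoint T (insert v ((F j).erase x)) := by
        intro T hTW hTd
        refine Finset.disjoint_left.2 fun a ha ha' => ?_
        rcases Finset.mem_insert.1 (hsub ha') with h | h
        · exact hvW (h ▸ hTW ha)
        · exact Finset.disjoint_left.1 hTd ha h
      refine ih hS' (Function.update F j (insert v ((F j).erase x))) ?_ ?_ ?_ ?_ ?_
      · intro i
        by_cases hij : i = j
        · subst hij
          rw [Function.update_self]
          exact hnew x hx
        · rw [Function.update_of_ne hij]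
          exact hold _ (hne _ (hFne i) (hd i j hij)) (hF i)
      · intro i k hik
        by_cases hij : i = j
        · subst hij
          have hki : k ≠ i := fun h => hik h.symm
          rw [Function.update_self, Function.update_of_ne hki]
          exact (hdv _ (hF k).1 (hd k i hki)).symm
        · by_cases hkj : k = j
          · subst hkj
            rw [Function.update_self, Function.update_of_ne hij]
            exact hdv _ (hF i).1 (hd i k hij)
          · rw [Function.update_of_ne hij, Function.update_of_ne hkj]
            exact hd i k hik
      · intro T hT
        have hTne : T.Nonempty := by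
          rw [← Finset.card_pos, (hR T hT).2.1.2]
          omega
        exact hold T (hne T hTne (hRF T hT j)) (hR T hT)
      · intro T hT i
        by_cases hij : i = j
        · subst hij
          rw [Function.update_self]
          exact hdv _ (hR T hT).1 (hRF T hT i)
        · rw [Function.update_of_ne hij]
          exact hRF T hT i
      · have h1 : (univ \ insert v W : Finset V) = (univ \ W : Finset V).erase v := by
          ext a
          simp only [Finset.mem_sdiff, Finset.mem_univ, true_and, Finset.mem_insert,
            Finset.mem_erase, not_or]
        rw [h1, Finset.card_erase_of_mem (hSW hvS)]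
        omega

end MK
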