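import Pool.Agent.MK.APath

/-!
# MKA-Round: one round and many rounds of covering

State: a thin 3-tree `H` on `W`, a free end triangle `E`, a family `R` of pairwise disjoint free
triangles with `E ∉ R`.

Plan for `cover_some`: induction on `L`. For `L = 0` take `N = ∅`. Step: from the state after `L`
steps let `U` be the set of vertices which are adjacent to no whole member of `N`; apply `path_step`
to `U`; `N' := insert R₀ N`, where `R₀` is the new triangle. The new set
`U' = U \ {v adjacent to all of R₀}` satisfies
`|U'| ≤ |U| - |U| K^3 / |V|^3 = |U| (1 - (K/|V|)^3)`. The old members of `R ∪ N` stay free since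
they are different from `E` (`E ∉ R ∪ N`); `E' ∉ insert R₀ (R ∪ N)` since `E' ≠ R₀` and `E' ⊄ W`;
`R₀` is disjoint from `W`, hence from the old members (subsets of `W`), and `R₀ ∉ R ∪ N` (it is
nonempty and disjoint from `W`).
`cover_all` is the case where `|V| (1 - (K/|V|)^3)^L < 1`, so that `U = ∅`.
`rounds`: induction on `r`, with `cover_all`; the new members are different from the old ones, so
the number of members in the neighbourhood of `v` grows by at least one each time.
-/

open scoped Classical
open Finset

namespace MK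

open MZ

variable {V : Type} [Fintype V]

/-- the state of the path construction -/
structure PS (G H : SimpleGraph V) (W E : Finset V) (R : Finset (Finset V)) : Prop where
  st : St G H W
  fE : Free H W E
  fR : ∀ T ∈ R, Free H W T
  disj : ∀ T ∈ R, ∀ T' ∈ R, T ≠ T' → Disjoint T T'
  notMem : E ∉ R

private lemma frac_le_one {G : SimpleGraph V} {M K : ℕ}
    (hM : ∀ x y z v : V, M ≤ (cn G x y z v).card) (hKM : K ≤ M) [Nonempty V] :
    (0 : ℝ) ≤ 1 - ((K : ℝ) / Fintype.card V) ^ 3 := by
  obtain ⟨v⟩ := (inferInstance : Nonempty V)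
  have h1 : K ≤ Fintype.card V :=
    (hKM.trans (hM v v v v)).trans (Finset.card_le_univ _)
  have hV : (0 : ℝ) < Fintype.card V := by
    have : 0 < Fintype.card V := Fintype.card_pos
    exact_mod_cast this
  have h2 : (K : ℝ) / Fintype.card V ≤ 1 := by
    rw [div_le_one hV]
    exact_mod_cast h1
  have h3 : ((K : ℝ) / Fintype.card V) ^ 3 ≤ 1 := pow_le_one₀ (by positivity) h2
  linarith

theorem cover_some {G : SimpleGraph V} {M K : ℕ}
    (hM : ∀ x y z v : V, M ≤ (cn G x y z v).card) (hK : 0 < K) (L : ℕ)
    {H : SimpleGraph V} {W E : Finset V} {R : Finset (Finset V)} (hS : PS G H W E R)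
    (hW : W.card + 3 * L + K ≤ M) :
    ∃ (H' : SimpleGraph V) (W' E' : Finset V) (N : Finset (Finset V)),
      PS G H' W' E' (R ∪ N) ∧ W'.card = W.card + 3 * L ∧ Disjoint R N ∧
      (((univ.filter (fun v : V => ∀ T ∈ N, ¬ ∀ t ∈ T, G.Adj v t)).card : ℕ) : ℝ) ≤
        Fintype.card V * (1 - ((K : ℝ) / Fintype.card V) ^ 3) ^ L := by
  induction L with
  | zero =>
    refine ⟨H, W, E, ∅, ?_, by simp, by simp, ?_⟩
    · rw [Finset.union_empty]
      exact hS
    · rw [pow_zero, mul_one]
      exact_mod_cast Finset.card_le_univ _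
  | succ L ih =>
    obtain ⟨H1, W1, E1, N, hS1, hW1, hRN, hcount⟩ := ih (by omega)
    set U : Finset V := univ.filter (fun v : V => ∀ T ∈ N, ¬ ∀ t ∈ T, G.Adj v t) with hU
    obtain ⟨H', W', E', R₀, hst, hcard, hsub, hfE, hfR, hdR, hne, hnsub, hkeep, hK3⟩ :=
      path_step hM hS1.st hS1.fE hK (by omega) U
    have hR0 : ∀ T ∈ R ∪ N, T ⊆ W1 := fun T hT => (hS1.fR T hT).1
    have hR0ne : R₀.Nonempty := by
      rw [← Finset.card_pos, hfR.2.1.card_eq]
      norm_num
    have hR0mem : ∀ T ∈ R ∪ N, T ≠ R₀ := by
      rintro T hT rfl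
      obtain ⟨x, hx⟩ := hR0ne
      exact (Finset.disjoint_left.1 hdR hx) (hR0 _ hT hx)
    have hUN : R ∪ insert R₀ N = insert R₀ (R ∪ N) := by
      rw [Finset.union_insert]
    refine ⟨H', W', E', insert R₀ N, ?_, by omega, ?_, ?_⟩
    · rw [hUN]
      refine ⟨hst, hfE, ?_, ?_, ?_⟩
      · intro T hT
        rcases Finset.mem_insert.1 hT with h | h
        · rw [h]
          exact hfR
        · exact hkeep T (fun h' => hS1.notMem (h' ▸ h)) (hS1.fR T h)
      · intro T hT T' hT' hTT
        rcases Finset.mem_insert.1 hT with h | h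
        · rcases Finset.mem_insert.1 hT' with h' | h'
          · exact absurd (h.trans h'.symm) hTT
          · rw [h]
            exact Finset.disjoint_of_subset_right (hR0 T' h') hdR
        · rcases Finset.mem_insert.1 hT' with h' | h'
          · rw [h']
            exact (Finset.disjoint_of_subset_right (hR0 T h) hdR).symm
          · exact hS1.disj T h T' h' hTT
      · intro hmem
        rcases Finset.mem_insert.1 hmem with h | h
        · exact hne h
        · exact hnsub (hR0 E' h)
    · rw [Finset.disjoint_insert_right]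
      exact ⟨fun h => hR0mem R₀ (Finset.mem_union_left _ h) rfl, hRN⟩
    · have hset : univ.filter (fun v : V => ∀ T ∈ insert R₀ N, ¬ ∀ t ∈ T, G.Adj v t) =
          U \ U.filter (fun v => ∀ r ∈ R₀, G.Adj v r) := by
        ext v
        simp only [Finset.mem_filter, Finset.mem_univ, true_and, Finset.mem_sdiff, hU,
          Finset.forall_mem_insert]
        tauto
      rw [hset, Finset.card_sdiff_of_subset (Finset.filter_subset _ _),
        Nat.cast_sub (Finset.card_le_card (Finset.filter_subset _ _))]
      rcases isEmpty_or_nonempty V with hV | hV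
      · have h1 : U.card = 0 := by
          rw [Finset.card_eq_zero]
          exact Subsingleton.elim _ _
        have h2 : (Fintype.card V : ℝ) = 0 := by
          rw [Fintype.card_eq_zero]
          simp
        rw [h1, h2]
        simp
      · have hq := frac_le_one hM (show K ≤ M by omega)
        have hVp : (0 : ℝ) < Fintype.card V := by
          have : 0 < Fintype.card V := Fintype.card_pos
          exact_mod_cast this
        have h3 : (U.card : ℝ) * (K : ℝ) ^ 3 ≤ (Fintype.card V : ℝ) ^ 3 *
            ((U.filter (fun v => ∀ r ∈ R₀, G.Adj v r)).card : ℝ) := by exact_mod_cast hK3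
        have h4 : (U.card : ℝ) * ((K : ℝ) / Fintype.card V) ^ 3 ≤
            ((U.filter (fun v => ∀ r ∈ R₀, G.Adj v r)).card : ℝ) := by
          rw [div_pow, ← mul_div_assoc, div_le_iff₀ (by positivity)]
          linarith
        calc (U.card : ℝ) - ((U.filter (fun v => ∀ r ∈ R₀, G.Adj v r)).card : ℝ)
            ≤ U.card * (1 - ((K : ℝ) / Fintype.card V) ^ 3) := by
              rw [mul_sub, mul_one]
              linarith
          _ ≤ (Fintype.card V * (1 - ((K : ℝ) / Fintype.card V) ^ 3) ^ L) *
              (1 - ((K : ℝ) / Fintype.card V) ^ 3) := mul_le_mul_of_nonneg_right hcount hq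
          _ = _ := by ring

theorem rounds {G : SimpleGraph V} {M K : ℕ}
    (hM : ∀ x y z v : V, M ≤ (cn G x y z v).card) (hK : 0 < K) (L r : ℕ)
    (hL : (Fintype.card V : ℝ) * (1 - ((K : ℝ) / Fintype.card V) ^ 3) ^ L < 1)
    {H : SimpleGraph V} {W E : Finset V} {R : Finset (Finset V)} (hS : PS G H W E R)
    (hW : W.card + 3 * L * r + K ≤ M) :
    ∃ (H' : SimpleGraph V) (W' E' : Finset V) (N : Finset (Finset V)),
      PS G H' W' E' (R ∪ N) ∧ W'.card = W.card + 3 * L * r ∧
      ∀ v : V, r ≤ (N.filter (fun T => ∀ t ∈ T, G.Adj v t)).card := by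
  induction r with
  | zero =>
    refine ⟨H, W, E, ∅, ?_, by simp, fun v => Nat.zero_le _⟩
    rw [Finset.union_empty]
    exact hS
  | succ r ih =>
    have e : 3 * L * (r + 1) = 3 * L * r + 3 * L := by ring
    obtain ⟨H1, W1, E1, N, hS1, hW1, hcount⟩ := ih (by omega)
    obtain ⟨H', W', E', N2, hS2, hW2, hdis, hc2⟩ := cover_some hM hK L hS1 (by omega)
    refine ⟨H', W', E', N ∪ N2, ?_, by omega, ?_⟩
    · rw [← Finset.union_assoc]
      exact hS2
    · intro v
      have h0 : (univ.filter (fun v : V => ∀ T ∈ N2, ¬ ∀ t ∈ T, G.Adj v t)).card = 0 := by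
        have h1 := lt_of_le_of_lt hc2 hL
        have h2 : (univ.filter (fun v : V => ∀ T ∈ N2, ¬ ∀ t ∈ T, G.Adj v t)).card < 1 := by
          exact_mod_cast h1
        omega
      rw [Finset.card_eq_zero, Finset.filter_eq_empty_iff] at h0
      have h1 := h0 (Finset.mem_univ v)
      push Not at h1
      obtain ⟨T, hT, hTv⟩ := h1
      rw [Finset.filter_union, Finset.card_union_of_disjoint]
      · have h2 : 1 ≤ (N2.filter (fun T => ∀ t ∈ T, G.Adj v t)).card :=
          Finset.card_pos.2 ⟨T, Finset.mem_filter.2 ⟨hT, hTv⟩⟩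
        have h3 := hcount v
        omega
      · exact Finset.disjoint_of_subset_left (Finset.filter_subset _ _)
          (Finset.disjoint_of_subset_right (Finset.filter_subset _ _)
            (Finset.disjoint_of_subset_left Finset.subset_union_right hdis))

end MK
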