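import Pool.Agent.MK.AAbsorb
import Pool.Agent.MK.AGreedy
import Pool.Agent.MK.ARound

/-!
# MKA-Det: the deterministic theorem

Plan. (1) Start: `V` is nonempty (`hL` or `hM` with ... if `V` is empty then `hM` gives nothing, but
`hne` is assumed). Pick `x : V`, `y ∈ cn G x x x x`, `z ∈ cn G x y y y`,
`w ∈ cn G x y z z` (all nonempty since `M ≥ K > 0`); `Q = {x, y, z, w}` is a 4-clique of `G`.
`H₀` := the graph with `Adj a b := a ≠ b ∧ a ∈ Q ∧ b ∈ Q`; `St G H₀ Q` (`IsTree3.base`; thin: a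
triangle of `Q` has exactly one common neighbour in `Q`), `E₀ = {x, y, z}` is free, `PS G H₀ Q E₀ ∅`.
(2) `rounds` with `r` gives `PS G H W E N` with at least `r` members of `N` in each neighbourhood.
(3) `N` has at least `r ≥ t` members; choose `A ⊆ N` with `A.card = t`, and enumerate it as
`F : Fin t → Finset V` (`Finset.equivFinOfCardEq`); `R := N \ A`. Disjointness from `PS.disj`.
(4) `greedy` gives `H' W'` with `|univ \ W'| ≤ s`, `R` still free.
(5) `absorb`: for every `v` the number of members of `R` in the neighbourhood of `v` is at least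
`r - t ≥ s`.
-/

open scoped Classical
open Finset

namespace MK

open MZ

variable {V : Type} [Fintype V]

private def cg (Q : Finset V) : SimpleGraph V where
  Adj a b := a ≠ b ∧ a ∈ Q ∧ b ∈ Q
  symm := ⟨fun _ _ h => ⟨h.1.symm, h.2.2, h.2.1⟩⟩
  loopless := ⟨fun _ h => h.1 rfl⟩

private theorem cg_fil {Q T : Finset V} (hT : T ⊆ Q) (hc : T.card = 3) (hQ : Q.card = 4) :
    (Q.filter (fun v => ∀ t ∈ T, (cg Q).Adj v t)).card ≤ 1 := by
  have h1 : Q.filter (fun v => ∀ t ∈ T, (cg Q).Adj v t) ⊆ Q \ T := by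
    intro v hv
    rw [mem_filter] at hv
    rw [mem_sdiff]
    refine ⟨hv.1, fun h => ?_⟩
    exact (hv.2 v h).1 rfl
  have h2 := card_le_card h1
  rw [card_sdiff_of_subset hT] at h2
  omega

omit [Fintype V] in
private theorem cg_clique {Q T : Finset V} (hT : T ⊆ Q) {k : ℕ} (hc : T.card = k) :
    (cg Q).IsNClique k T := by
  refine ⟨?_, hc⟩
  intro a ha b hb hab
  exact ⟨hab, hT ha, hT hb⟩

private theorem cg_St {G : SimpleGraph V} {Q : Finset V} (hQ : G.IsNClique 4 Q) : St G (cg Q) Q where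
  le := by
    intro a b hab
    exact hQ.isClique hab.2.1 hab.2.2 hab.1
  supp := fun a b hab => hab.2
  tree := IsTree3.base Q (cg_clique (Subset.refl Q) hQ.card_eq)
  thin := fun T hT hc => (cg_fil hT hc.card_eq hQ.card_eq).trans (by norm_num)

private theorem start {G : SimpleGraph V} [Nonempty V] {M : ℕ}
    (hM : ∀ x y z v : V, M ≤ (cn G x y z v).card) (h0 : 0 < M) :
    ∃ Q E : Finset V, Q.card = 4 ∧ PS G (cg Q) Q E ∅ := by
  have hex : ∀ x y z v : V, ∃ w : V, G.Adj w x ∧ G.Adj w y ∧ G.Adj w z ∧ G.Adj w v := by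
    intro x y z v
    have h1 : 0 < (cn G x y z v).card := lt_of_lt_of_le h0 (hM x y z v)
    obtain ⟨w, hw⟩ := card_pos.mp h1
    unfold cn at hw
    exact ⟨w, (mem_filter.mp hw).2⟩
  obtain ⟨x⟩ : Nonempty V := inferInstance
  obtain ⟨y, hyx, -, -, -⟩ := hex x x x x
  obtain ⟨z, hzx, hzy, -, -⟩ := hex x y y y
  obtain ⟨w, hwx, hwy, hwz, -⟩ := hex x y z z
  have hQ : G.IsNClique 4 ({x, y, z, w} : Finset V) := by
    have h3 : G.IsNClique 3 ({y, z, w} : Finset V) := by
      rw [SimpleGraph.is3Clique_iff]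
      exact ⟨y, z, w, hzy.symm, hwy.symm, hwz.symm, rfl⟩
    refine h3.insert ?_
    intro b hb
    simp only [mem_insert, mem_singleton] at hb
    rcases hb with rfl | rfl | rfl
    · exact hyx.symm
    · exact hzx.symm
    · exact hwx.symm
  have hE : ({x, y, z} : Finset V) ⊆ ({x, y, z, w} : Finset V) := by
    intro a ha
    simp only [mem_insert, mem_singleton] at ha ⊢
    tauto
  have hEc : ({x, y, z} : Finset V).card = 3 := by
    rw [card_eq_three]
    exact ⟨x, y, z, hyx.symm.ne, hzx.symm.ne, hzy.symm.ne, rfl⟩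
  refine ⟨{x, y, z, w}, {x, y, z}, hQ.card_eq, ?_⟩
  exact
    { st := cg_St hQ
      fE := ⟨hE, cg_clique hE hEc, (cg_fil hE hEc hQ.card_eq).trans (by norm_num)⟩
      fR := fun T hT => absurd hT (notMem_empty T)
      disj := fun T hT => absurd hT (notMem_empty T)
      notMem := notMem_empty _ }

theorem exists_spanning {G : SimpleGraph V} [Nonempty V] {M K L r t s : ℕ}
    (hM : ∀ x y z v : V, M ≤ (cn G x y z v).card)
    (hP : ∀ (F : Fin t → Finset V) (S : Finset V), (∀ j, (F j).card = 3) →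
      (∀ i j, i ≠ j → Disjoint (F i) (F j)) → S.card = s → (∀ j, Disjoint S (F j)) →
      ∃ v ∈ S, ∃ j, ∀ a ∈ F j, G.Adj v a)
    (hK : 0 < K) (hL : (Fintype.card V : ℝ) * (1 - ((K : ℝ) / Fintype.card V) ^ 3) ^ L < 1)
    (hr : t + s ≤ r) (hW : 4 + 3 * L * r + K ≤ M) :
    ∃ H : SimpleGraph V, H ≤ G ∧ IsTree3 H univ ∧ Thin H univ := by
  obtain ⟨Q, E, hQ, hPS⟩ := start hM (by omega)
  obtain ⟨H1, W1, E1, N, hPS1, -, hN⟩ := rounds hM hK L r hL hPS (by rw [hQ]; exact hW)
  rw [empty_union] at hPS1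
  have hNc : t ≤ N.card := by
    obtain ⟨v⟩ : Nonempty V := inferInstance
    have h1 := hN v
    have h2 := card_le_card (filter_subset (fun T => ∀ t ∈ T, G.Adj v t) N)
    omega
  obtain ⟨A, hAN, hA⟩ := exists_subset_card_eq hNc
  let e := A.equivFinOfCardEq hA
  let F : Fin t → Finset V := fun j => ((e.symm j : A) : Finset V)
  have hFA : ∀ j, F j ∈ A := fun j => (e.symm j).2
  have hFne : ∀ i j, i ≠ j → F i ≠ F j := by
    intro i j hij h
    exact hij (e.symm.injective (Subtype.ext h))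
  have hd : ∀ i j, i ≠ j → Disjoint (F i) (F j) := fun i j hij =>
    hPS1.disj _ (hAN (hFA i)) _ (hAN (hFA j)) (hFne i j hij)
  have hRF : ∀ T ∈ N \ A, ∀ j, Disjoint T (F j) := by
    intro T hT j
    rw [mem_sdiff] at hT
    refine hPS1.disj _ hT.1 _ (hAN (hFA j)) ?_
    intro h
    rw [h] at hT
    exact hT.2 (hFA j)
  obtain ⟨H2, W2, hS2, hc2, hR2⟩ := greedy hP hPS1.st F (fun j => hPS1.fR _ (hAN (hFA j))) hd (N \ A)
    (fun T hT => hPS1.fR _ (mem_sdiff.mp hT).1) hRF
  obtain ⟨H3, hS3⟩ := absorb hS2 (N \ A) hR2 (by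
    intro v hv
    have h1 := hN v
    have h2 : N.filter (fun T => ∀ t ∈ T, G.Adj v t) ⊆
        A ∪ (N \ A).filter (fun T => ∀ t ∈ T, G.Adj v t) := by
      intro T hT
      rw [mem_filter] at hT
      rw [mem_union, mem_filter, mem_sdiff]
      by_cases h : T ∈ A
      · exact Or.inl h
      · exact Or.inr ⟨⟨hT.1, h⟩, hT.2⟩
    have h3 := (card_le_card h2).trans (card_union_le _ _)
    omega)
  exact ⟨H3, hS3.le, hS3.tree, hS3.thin⟩

end MK
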