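import Mathlib

/-!
# MKA-Num: the parameters

`M = ⌊n/1000⌋`, `K = ⌊n/2000⌋`, `t = s = ⌊√n⌋` (`Nat.sqrt n`), `r = 2 ⌊√n⌋`,
`L = ⌈10^11 (log n + 1)⌉` (any explicit choice will do).

Plan. (`num_L`) for `n ≥ 4000`: `K/n ≥ 1/2000 - 1/n ≥ 1/4000`, `1 - x ≤ exp(-x)`, so the left side is
at most `n * exp(-L/4000^3)`; `4000^3 = 6.4 * 10^10 ≤ 10^11`, so it is `≤ n exp(-(log n + 1)) < 1`.
(`num_W`) `3 L r = O(√n log n)`, `isLittleO_log_id_atTop` etc.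
-/

open Filter

namespace MK

noncomputable def LL (n : ℕ) : ℕ := ⌈(10 : ℝ) ^ 11 * (Real.log n + 1)⌉₊

theorem num_L : ∀ᶠ n : ℕ in atTop,
    (n : ℝ) * (1 - (((n / 2000 : ℕ) : ℝ) / n) ^ 3) ^ (LL n) < 1 := by
  filter_upwards [eventually_ge_atTop 4000] with n hn
  have hnR : (4000 : ℝ) ≤ n := by exact_mod_cast hn
  have hn0 : (0 : ℝ) < n := by linarith
  have hk : (n : ℝ) / 2000 - 1 ≤ ((n / 2000 : ℕ) : ℝ) := by
    have h1 : n < 2000 * (n / 2000 + 1) := by omega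
    have h2 : (n : ℝ) < 2000 * (((n / 2000 : ℕ) : ℝ) + 1) := by exact_mod_cast h1
    linarith
  have hk2 : ((n / 2000 : ℕ) : ℝ) ≤ n := by
    exact_mod_cast Nat.div_le_self n 2000
  set x : ℝ := ((n / 2000 : ℕ) : ℝ) / n with hx
  have hx1 : 1 / 4000 ≤ x := by
    rw [hx, le_div_iff₀ hn0]
    linarith
  have hx2 : x ≤ 1 := by
    rw [hx, div_le_one hn0]
    exact hk2
  have hx3 : (1 : ℝ) / 4000 ^ 3 ≤ x ^ 3 := by
    have : ((1 : ℝ) / 4000) ^ 3 ≤ x ^ 3 := pow_le_pow_left₀ (by norm_num) hx1 3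
    calc (1 : ℝ) / 4000 ^ 3 = (1 / 4000) ^ 3 := by norm_num
      _ ≤ x ^ 3 := this
  have hx4 : x ^ 3 ≤ 1 := pow_le_one₀ (by linarith) hx2
  have h1 : (1 - x ^ 3) ^ (LL n) ≤ Real.exp (-(LL n : ℝ) / 4000 ^ 3) := by
    have h2 : 1 - x ^ 3 ≤ Real.exp (-(1 / 4000 ^ 3)) := by
      have := Real.add_one_le_exp (-((1 : ℝ) / 4000 ^ 3))
      linarith
    calc (1 - x ^ 3) ^ (LL n) ≤ (Real.exp (-(1 / 4000 ^ 3))) ^ (LL n) :=
          pow_le_pow_left₀ (by linarith) h2 _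
      _ = Real.exp (-(LL n : ℝ) / 4000 ^ 3) := by
          rw [← Real.exp_nat_mul]
          congr 1
          ring
  have hlog : 0 ≤ Real.log n := Real.log_nonneg (by linarith)
  have hL : (10 : ℝ) ^ 11 * (Real.log n + 1) ≤ LL n := Nat.le_ceil _
  have h3 : Real.exp (-(LL n : ℝ) / 4000 ^ 3) ≤ Real.exp (-(Real.log n + 1)) := by
    apply Real.exp_le_exp.mpr
    rw [neg_div]
    apply neg_le_neg
    rw [le_div_iff₀ (by norm_num)]
    nlinarith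
  have h4 : Real.exp (-(Real.log n + 1)) = (n : ℝ)⁻¹ * Real.exp (-1) := by
    rw [neg_add, Real.exp_add, Real.exp_neg, Real.exp_log hn0]
  have h5 : Real.exp (-1 : ℝ) < 1 := by
    rw [Real.exp_lt_one_iff]
    norm_num
  calc (n : ℝ) * (1 - x ^ 3) ^ (LL n) ≤ n * ((n : ℝ)⁻¹ * Real.exp (-1)) := by
        apply mul_le_mul_of_nonneg_left _ hn0.le
        rw [← h4]
        exact h1.trans h3
    _ = Real.exp (-1) := by field_simp
    _ < 1 := h5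

theorem num_W : ∀ᶠ n : ℕ in atTop,
    4 + 3 * LL n * (2 * Nat.sqrt n) + n / 2000 ≤ n / 1000 := by
  have hlog : (fun x : ℝ => Real.log x) =o[atTop] fun x => x ^ (1 / 2 : ℝ) :=
    isLittleO_log_rpow_atTop (by norm_num)
  have h1 : (fun _ : ℝ => (1 : ℝ)) =o[atTop] fun x => x ^ (1 / 2 : ℝ) := by
    rw [Asymptotics.isLittleO_one_left_iff]
    exact (tendsto_norm_atTop_atTop).comp (tendsto_rpow_atTop (by norm_num))
  have h2 : (fun x : ℝ => (10 : ℝ) ^ 11 * Real.log x + ((10 : ℝ) ^ 11 + 1) * 1) =o[atTop]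
      fun x => x ^ (1 / 2 : ℝ) :=
    (hlog.const_mul_left _).add (h1.const_mul_left _)
  have h3 := h2.bound (c := 1 / 24000) (by norm_num)
  have h4 : ∀ᶠ n : ℕ in atTop, ‖(10 : ℝ) ^ 11 * Real.log (n : ℝ) + ((10 : ℝ) ^ 11 + 1) * 1‖
      ≤ 1 / 24000 * ‖((n : ℝ)) ^ (1 / 2 : ℝ)‖ :=
    tendsto_natCast_atTop_atTop.eventually h3
  filter_upwards [h4, eventually_ge_atTop 20000] with n hn hn2
  have hnR : (20000 : ℝ) ≤ n := by exact_mod_cast hn2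
  have hn0 : (0 : ℝ) < n := by linarith
  have hl : 0 ≤ Real.log (n : ℝ) := Real.log_nonneg (by linarith)
  rw [Real.norm_of_nonneg (by positivity), Real.norm_of_nonneg (by positivity),
    ← Real.sqrt_eq_rpow] at hn
  have hL : (LL n : ℝ) ≤ (10 : ℝ) ^ 11 * Real.log n + ((10 : ℝ) ^ 11 + 1) * 1 := by
    have h := (Nat.ceil_lt_add_one
      (show 0 ≤ (10 : ℝ) ^ 11 * (Real.log n + 1) by positivity)).le
    unfold LL
    linarith
  have hL2 : (LL n : ℝ) ≤ 1 / 24000 * Real.sqrt n := hL.trans hn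
  have hs : ((Nat.sqrt n : ℕ) : ℝ) ≤ Real.sqrt n := by
    apply Real.le_sqrt_of_sq_le
    have := Nat.sqrt_le' n
    exact_mod_cast this
  have hss : Real.sqrt n * Real.sqrt n = n := Real.mul_self_sqrt hn0.le
  have hs0 : 0 ≤ Real.sqrt (n : ℝ) := Real.sqrt_nonneg _
  have h5 : (LL n : ℝ) * (Nat.sqrt n : ℕ) ≤ 1 / 24000 * n := by
    calc (LL n : ℝ) * (Nat.sqrt n : ℕ) ≤ (1 / 24000 * Real.sqrt n) * Real.sqrt n :=
          mul_le_mul hL2 hs (by positivity) (by positivity)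
      _ = 1 / 24000 * n := by rw [mul_assoc, hss]
  have h6 : ((24000 * (LL n * Nat.sqrt n) : ℕ) : ℝ) ≤ (n : ℕ) := by
    push_cast
    linarith
  have h7 : 24000 * (LL n * Nat.sqrt n) ≤ n := by exact_mod_cast h6
  have h8 : 3 * LL n * (2 * Nat.sqrt n) = 6 * (LL n * Nat.sqrt n) := by ring
  rw [h8]
  omega

end MK
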