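import Mathlib

/-!
# MKA-Num2: the probability estimates

`M = ⌊n/1000⌋`, `t = s = ⌊√n⌋` (`Nat.sqrt n`).

Plan. (`num_M`) `Nat.choose n (n-4-M) = Nat.choose n (M+4)` and
`Nat.choose n m * x^m ≤ (1+x)^n` (`x = 1/1000`, one term of the binomial theorem), so
`choose ≤ (1.001)^n * 1000^(n/1000+4)`; `(15/16)^(n-4-M) ≤ (15/16)^(0.999 n - 4)`;
`log 1.001 + log 1000 / 1000 + 0.999 log (15/16) ≤ 0.001 + 0.00691 - 0.0644 < -0.05`
(`log (15/16) ≤ 15/16 - 1 = -0.0625` is enough: `0.00791 - 0.0624 < -0.05`;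
`log 1000 < 6.92` from `Real.log_two_lt_d9`, `1000 < 2^10`: `log 1000 ≤ 10 * 0.6931472`).
(`num_P`) `n^(4 √n) (7/8)^(⌊√n⌋^2)`; `⌊√n⌋^2 ≥ n - 2√n`, `log (7/8) ≤ -1/8`, `√n log n = o(n)`.
-/

open Filter

namespace MK

private theorem pow_le_exp (k : ℕ) (b c : ℝ) (hb : 0 < b) (hc : 0 < c) :
    ∀ᶠ n : ℕ in atTop, (n : ℝ) ^ k ≤ c * Real.exp (b * n) := by
  have h := (isLittleO_pow_exp_pos_mul_atTop (k := k) hb).comp_tendsto
    (tendsto_natCast_atTop_atTop (R := ℝ))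
  filter_upwards [h.bound hc] with n hn
  simp only [Function.comp] at hn
  rw [Real.norm_of_nonneg (by positivity), Real.norm_of_nonneg (Real.exp_pos _).le] at hn
  exact hn

private theorem pow_le_exp_mul (x a : ℝ) (n : ℕ) (hx : 0 ≤ x) (h : x ≤ Real.exp a) :
    x ^ n ≤ Real.exp (n * a) := by
  rw [Real.exp_nat_mul]
  exact pow_le_pow_left₀ hx h n

theorem num_M : ∀ᶠ n : ℕ in atTop,
    (n : ℝ) ^ 4 * (Nat.choose n (n - 4 - n / 1000) : ℝ) * (15 / 16 : ℝ) ^ (n - 4 - n / 1000) ≤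
      Real.exp (-(n : ℝ) / 25) := by
  filter_upwards [pow_le_exp 4 (1 / 100) 1 (by norm_num) (by norm_num), eventually_ge_atTop 20000]
    with n hn hn2
  set m := n / 1000 + 4 with hm
  have hmn : m ≤ n := by omega
  have e1 : n - 4 - n / 1000 = n - m := by omega
  rw [e1, Nat.choose_symm hmn]
  have hmR : (m : ℝ) ≤ n / 1000 + 4 := by
    rw [hm]
    push_cast
    have : ((n / 1000 : ℕ) : ℝ) ≤ (n : ℝ) / (1000 : ℕ) := Nat.cast_div_le
    push_cast at this
    linarith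
  have hnR : (20000 : ℝ) ≤ n := by exact_mod_cast hn2
  -- the binomial coefficient
  have hch : (Nat.choose n m : ℝ) * (1 / 1000 : ℝ) ^ m ≤ (1 / 1000 + 1 : ℝ) ^ n := by
    rw [add_pow]
    have := Finset.single_le_sum (f := fun i => (1 / 1000 : ℝ) ^ i * 1 ^ (n - i) * (n.choose i : ℝ))
      (s := Finset.range (n + 1)) (fun i _ => by positivity) (Finset.mem_range.mpr (by omega : m < n + 1))
    simp only [one_pow, mul_one] at this ⊢
    linarith
  have hlog : Real.log 1000 ≤ 6.932 := by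
    have h1 : Real.log 1000 ≤ Real.log (2 ^ 10) := Real.log_le_log (by norm_num) (by norm_num)
    rw [Real.log_pow] at h1
    have := Real.log_two_lt_d9
    push_cast at h1
    linarith
  have h1000 : (1000 : ℝ) ≤ Real.exp 6.932 := by
    rw [← Real.log_le_iff_le_exp (by norm_num)]
    exact hlog
  have hch2 : (Nat.choose n m : ℝ) ≤ Real.exp (n * (1 / 1000)) * Real.exp (m * 6.932) := by
    have a1 : (1 / 1000 + 1 : ℝ) ^ n ≤ Real.exp (n * (1 / 1000)) :=
      pow_le_exp_mul _ _ n (by norm_num) (Real.add_one_le_exp _)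
    have a2 : (1000 : ℝ) ^ m ≤ Real.exp (m * 6.932) := pow_le_exp_mul _ _ m (by norm_num) h1000
    have a3 : (Nat.choose n m : ℝ) = (Nat.choose n m : ℝ) * (1 / 1000 : ℝ) ^ m * 1000 ^ m := by
      rw [mul_assoc, ← mul_pow]
      norm_num
    rw [a3]
    exact mul_le_mul (le_trans hch a1) a2 (by positivity) (Real.exp_pos _).le
  -- the power of 15/16
  have hp : (15 / 16 : ℝ) ^ (n - m) ≤ Real.exp (((n : ℝ) - m) * (-(1 / 16))) := by
    have := pow_le_exp_mul (15 / 16) (-(1 / 16)) (n - m) (by norm_num)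
      (by have := Real.add_one_le_exp (-(1 / 16) : ℝ); linarith)
    rwa [Nat.cast_sub hmn] at this
  have hn' : (n : ℝ) ^ 4 ≤ Real.exp (1 / 100 * n) := by linarith
  calc (n : ℝ) ^ 4 * (Nat.choose n m : ℝ) * (15 / 16 : ℝ) ^ (n - m)
      ≤ Real.exp (1 / 100 * n) * (Real.exp (n * (1 / 1000)) * Real.exp (m * 6.932)) *
          Real.exp (((n : ℝ) - m) * (-(1 / 16))) := by
        refine mul_le_mul (mul_le_mul hn' hch2 (by positivity) (Real.exp_pos _).le) hp
          (by positivity) (by positivity)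
    _ = Real.exp (1 / 100 * n + (n * (1 / 1000) + m * 6.932) + ((n : ℝ) - m) * (-(1 / 16))) := by
        rw [← Real.exp_add, ← Real.exp_add, ← Real.exp_add]
    _ ≤ Real.exp (-(n : ℝ) / 25) := by
        rw [Real.exp_le_exp]
        linarith

theorem num_P : ∀ᶠ n : ℕ in atTop,
    (n : ℝ) ^ (3 * Nat.sqrt n + Nat.sqrt n) * (7 / 8 : ℝ) ^ (Nat.sqrt n * Nat.sqrt n) ≤
      Real.exp (-(n : ℝ) / 25) := by
  have hev := pow_le_exp 2 (1 / 100) (1 / 4) (by norm_num) (by norm_num)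
  rw [eventually_atTop] at hev
  obtain ⟨N, hN⟩ := hev
  rw [eventually_atTop]
  refine ⟨(N + 2) * (N + 2), ?_⟩
  intro n hn
  set s := Nat.sqrt n with hs
  have hsN : N + 2 ≤ s := Nat.le_sqrt.mpr hn
  have hns : n ≤ s * s + s + s := by
    have := Nat.lt_succ_sqrt n
    rw [← hs] at this
    have e : (s + 1) * (s + 1) = s * s + s + s + 1 := by ring
    simp only [Nat.succ_eq_add_one] at this
    omega
  have hnsR : (n : ℝ) ≤ s * s + s + s := by exact_mod_cast hns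
  have hs2 : (2 : ℝ) ≤ s := by
    have : 2 ≤ s := by omega
    exact_mod_cast this
  have hexp : (n : ℝ) ≤ Real.exp (1 / 100 * s) := by
    have h1 := hN s (by omega)
    have h2 : (n : ℝ) ≤ 4 * (s : ℝ) ^ 2 := by nlinarith
    linarith
  have h1 : (n : ℝ) ^ (3 * s + s) ≤ Real.exp (((3 * s + s : ℕ) : ℝ) * (1 / 100 * s)) :=
    pow_le_exp_mul _ _ _ (Nat.cast_nonneg n) hexp
  have h2 : (7 / 8 : ℝ) ^ (s * s) ≤ Real.exp (((s * s : ℕ) : ℝ) * (-(1 / 8))) :=
    pow_le_exp_mul _ _ _ (by norm_num) (by have := Real.add_one_le_exp (-(1 / 8) : ℝ); linarith)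
  calc (n : ℝ) ^ (3 * s + s) * (7 / 8 : ℝ) ^ (s * s)
      ≤ Real.exp (((3 * s + s : ℕ) : ℝ) * (1 / 100 * s)) * Real.exp (((s * s : ℕ) : ℝ) * (-(1 / 8))) :=
        mul_le_mul h1 h2 (by positivity) (Real.exp_pos _).le
    _ = Real.exp (((3 * s + s : ℕ) : ℝ) * (1 / 100 * s) + ((s * s : ℕ) : ℝ) * (-(1 / 8))) := by
        rw [← Real.exp_add]
    _ ≤ Real.exp (-(n : ℝ) / 25) := by
        rw [Real.exp_le_exp]
        push_cast
        nlinarith

end MK
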