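import Pool.Agent.MK.ADet
import Pool.Agent.MK.ACntM
import Pool.Agent.MK.ACntP
import Pool.Agent.MK.ANum
import Pool.Agent.MK.ANum2
import Pool.Agent.MZ.Main

/-!
# MKA-Main: almost all graphs
-/

open scoped Pointwise Classical
open Finset Filter

namespace MK

open MZ

/-- a spanning thin 3-tree gives the largest possible Minkowski dimension -/
theorem dim_of_spanning {V : Type} [Fintype V] {G : SimpleGraph V}
    (h : ∃ H : SimpleGraph V, H ≤ G ∧ IsTree3 H univ ∧ Thin H univ) :
    dimMink (Z G) = Fintype.card V - 1 := by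
  obtain ⟨H, hHG, hT, hth⟩ := h
  have h1 := lower hHG hT hth
  have h4 := four_le_card hT
  have hbot : G ≠ ⊥ := by
    rintro rfl
    have hH : H = ⊥ := le_bot_iff.1 hHG
    subst hH
    have : ∀ W : Finset V, ¬ IsTree3 (⊥ : SimpleGraph V) W := by
      intro W hW
      induction hW with
      | base s hs =>
        have h1 : 1 < s.card := by rw [hs.card_eq]; norm_num
        obtain ⟨a, ha, b, hb, hab⟩ := Finset.one_lt_card.mp h1
        exact (hs.isClique ha hb hab)
      | step _ _ _ _ _ _ _ _ ih => exact ih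
    exact this _ hT
  obtain ⟨W, hW, -⟩ := upper_bound hbot
  have h2 : W.card ≤ Fintype.card V := Finset.card_le_univ W
  rw [Finset.card_univ] at h1 h4
  omega

theorem almost_all : ∃ c : ℝ, 0 < c ∧ ∃ N : ℕ, ∀ n ≥ N,
    (((univ : Finset (SimpleGraph (Fin n))).filter (fun G => dimMink (Z G) ≠ n - 1)).card : ℝ) ≤
      Real.exp (-c * n) * Fintype.card (SimpleGraph (Fin n)) := by
  obtain ⟨N, hN⟩ := eventually_atTop.1 (((num_L.and num_W).and (num_M.and num_P)).and
    (eventually_ge_atTop 4000))
  refine ⟨1 / 50, by norm_num, max N 4000, ?_⟩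
  intro n hn
  obtain ⟨⟨⟨h1, h2⟩, h3, h4⟩, h5⟩ := hN n (le_trans (le_max_left _ _) hn)
  have hne : Nonempty (Fin n) := ⟨⟨0, by omega⟩⟩
  set A := (univ : Finset (SimpleGraph (Fin n))).filter
    (fun G => ∃ x y z v : Fin n, (cn G x y z v).card < n / 1000) with hA
  set B := (univ : Finset (SimpleGraph (Fin n))).filter
    (fun G => ¬ PropP G (Nat.sqrt n) (Nat.sqrt n)) with hB
  have hsub : (univ : Finset (SimpleGraph (Fin n))).filter (fun G => dimMink (Z G) ≠ n - 1) ⊆
      A ∪ B := by
    intro G hG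
    rw [Finset.mem_filter] at hG
    by_contra hcon
    rw [Finset.mem_union, not_or, hA, hB, Finset.mem_filter, Finset.mem_filter] at hcon
    obtain ⟨hc1, hc2⟩ := hcon
    push Not at hc1 hc2
    have hP := hc2 (Finset.mem_univ _)
    have hM := hc1 (Finset.mem_univ _)
    apply hG.2
    have := dim_of_spanning (exists_spanning (G := G) (M := n / 1000) (K := n / 2000)
      (L := LL n) (r := 2 * Nat.sqrt n) (t := Nat.sqrt n) (s := Nat.sqrt n) hM hP
      (Nat.div_pos (by omega) (by norm_num)) (by rw [Fintype.card_fin]; exact h1) (by omega) h2)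
    rwa [Fintype.card_fin] at this
  have hcA := count_M n (n / 1000)
  have hcB := count_P n (Nat.sqrt n) (Nat.sqrt n)
  have hpos : (0 : ℝ) ≤ Fintype.card (SimpleGraph (Fin n)) := Nat.cast_nonneg _
  have hcard : (((univ : Finset (SimpleGraph (Fin n))).filter
      (fun G => dimMink (Z G) ≠ n - 1)).card : ℝ) ≤ (A.card : ℝ) + B.card := by
    exact_mod_cast (Finset.card_le_card hsub).trans (Finset.card_union_le A B)
  have hexp : Real.exp (-(n : ℝ) / 25) + Real.exp (-(n : ℝ) / 25) ≤ Real.exp (-(1 / 50) * n) := by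
    have hn' : (4000 : ℝ) ≤ n := by exact_mod_cast h5
    have h6 : Real.exp (-(n : ℝ) / 25) = Real.exp (-(1 / 50) * n) * Real.exp (-(1 / 50) * n) := by
      rw [← Real.exp_add]
      congr 1
      ring
    have h7 : Real.exp (-(1 / 50) * (n : ℝ)) ≤ 1 / 2 := by
      have h8 : Real.exp (-(1 / 50) * (n : ℝ)) ≤ Real.exp (-1) := by
        apply Real.exp_le_exp.2
        linarith
      have h9 : Real.exp (-1) ≤ 1 / 2 := by
        rw [Real.exp_neg, ← one_div]
        apply one_div_le_one_div_of_le (by norm_num)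
        have := Real.add_one_le_exp (1 : ℝ)
        linarith
      exact h8.trans h9
    have h10 := Real.exp_pos (-(1 / 50) * (n : ℝ))
    rw [h6]
    nlinarith
  calc (((univ : Finset (SimpleGraph (Fin n))).filter
      (fun G => dimMink (Z G) ≠ n - 1)).card : ℝ) ≤ (A.card : ℝ) + B.card := hcard
    _ ≤ Real.exp (-(n : ℝ) / 25) * Fintype.card (SimpleGraph (Fin n)) +
        Real.exp (-(n : ℝ) / 25) * Fintype.card (SimpleGraph (Fin n)) := by
        apply add_le_add
        · exact hcA.trans (mul_le_mul_of_nonneg_right h3 hpos)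
        · exact hcB.trans (mul_le_mul_of_nonneg_right h4 hpos)
    _ = (Real.exp (-(n : ℝ) / 25) + Real.exp (-(n : ℝ) / 25)) *
        Fintype.card (SimpleGraph (Fin n)) := by ring
    _ ≤ Real.exp (-(1 / 50) * n) * Fintype.card (SimpleGraph (Fin n)) :=
        mul_le_mul_of_nonneg_right hexp hpos

end MK
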