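import Pool.Agent.MK.AAttach

/-!
# MKA-Path: three more vertices that form a triangle adjacent to many given vertices

`hM`: any four vertices have at least `M` common neighbours. Let `K ≤ M - |W|`. `E` is the free end
triangle. `U` is the set of vertices that we want to be adjacent to all of the new triangle.

Plan. Write `E = {x, y, z}` (`SimpleGraph.is3Clique_iff`, distinct vertices). Let `P` be the set of
triples `(a, b, c) ∈ V × V × V` with `a` adjacent to `x, y, z`, `b` adjacent to `a, y, z`,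
`c` adjacent to `a, b, z`, and `a, b, c ∉ W`. Averaging: for every `v`, the number of `(a, b, c) ∈ P` with
`v` adjacent to `a`, `b`, `c` is at least `K ^ 3`: `a` ranges over `cn G x y z v \ W` (at least
`M - |W| ≥ K` elements), given `a`, `b` ranges over `cn G a y z v \ W`, given `a, b`, `c` ranges
over `cn G a b z v \ W`. So the double sum over `v ∈ U` and `p ∈ P` is at least
`|U| * K ^ 3`, and `|P| ≤ |V| ^ 3` (P is a subset of `V × V × V`), so some `p ∈ P` has
`|U| * K ^ 3 ≤ |V| ^ 3 * #{v ∈ U adjacent to a, b, c}` (if `U` is empty any `p ∈ P` will do, and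
`P` is nonempty because `K > 0`; `Finset.exists_le_of_sum_le` or by contradiction).
For this `(a, b, c)` use `attach` three times:
- attach `a` to `{x, y, z}`; the triangle `{a, y, z} = insert a ({x, y, z}.erase x)` is free;
- attach `b` to it; `{a, b, z} = insert b ({a, y, z}.erase y)` is free;
- attach `c` to it; `R := {a, b, c} = insert c ({a, b, z}.erase z)` and
  `E' := {b, c, z} = insert c ({a, b, z}.erase a)` are free.
(`b ≠ a` since adjacent, and so on; `a ∉ W`, `b ∉ insert a W`, `c ∉ insert b (insert a W)`.)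
Members `T ⊆ W` which are free and `≠ E` stay free: they do not contain `a` or `b`, so they differ
from the second and third triangle used.
`W' := insert c (insert b (insert a W))`, `W'.card = W.card + 3`.
-/

open scoped Classical
open Finset

namespace MK

open MZ

variable {V : Type} [Fintype V]

private theorem path_sdiff {G : SimpleGraph V} {M K : ℕ}
    (hM : ∀ x y z v : V, M ≤ (cn G x y z v).card) {W : Finset V} (hW : W.card + K ≤ M)
    (x y z v : V) : K ≤ (cn G x y z v \ W).card := by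
  have h1 := Finset.le_card_sdiff W (cn G x y z v)
  have h2 := hM x y z v
  omega

private theorem path_count {G : SimpleGraph V} {M K : ℕ}
    (hM : ∀ x y z v : V, M ≤ (cn G x y z v).card) {W : Finset V} (hW : W.card + K ≤ M)
    (x y z v : V) (P : Finset (V × V × V))
    (hP : ∀ a b c, a ∈ cn G x y z v \ W → b ∈ cn G a y z v \ W → c ∈ cn G a b z v \ W →
      (a, b, c) ∈ P) : K ^ 3 ≤ P.card := by
  set S : Finset (Σ _ : V, Σ _ : V, V) := (cn G x y z v \ W).sigma
    (fun a => (cn G a y z v \ W).sigma (fun b => cn G a b z v \ W)) with hS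
  have h1 : K ^ 3 ≤ S.card := by
    rw [hS, Finset.card_sigma]
    calc K ^ 3 = K * (K * K) := by ring
      _ ≤ (cn G x y z v \ W).card * (K * K) :=
          Nat.mul_le_mul_right _ (path_sdiff hM hW x y z v)
      _ = ∑ _a ∈ cn G x y z v \ W, K * K := by rw [Finset.sum_const, smul_eq_mul]
      _ ≤ ∑ a ∈ cn G x y z v \ W, ((cn G a y z v \ W).sigma (fun b => cn G a b z v \ W)).card := by
          refine Finset.sum_le_sum fun a _ => ?_
          rw [Finset.card_sigma]
          calc K * K ≤ (cn G a y z v \ W).card * K :=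
                Nat.mul_le_mul_right _ (path_sdiff hM hW a y z v)
            _ = ∑ _b ∈ cn G a y z v \ W, K := by rw [Finset.sum_const, smul_eq_mul]
            _ ≤ _ := Finset.sum_le_sum fun b _ => path_sdiff hM hW a b z v
  refine h1.trans (Finset.card_le_card_of_injOn (fun s => (s.1, s.2.1, s.2.2)) ?_ ?_)
  · rintro ⟨a, b, c⟩ hs
    rw [Finset.mem_coe, hS, Finset.mem_sigma, Finset.mem_sigma] at hs
    exact hP a b c hs.1 hs.2.1 hs.2.2
  · rintro ⟨a, b, c⟩ _ ⟨a', b', c'⟩ _ h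
    simp only [Prod.mk.injEq] at h
    obtain ⟨rfl, rfl, rfl⟩ := h
    rfl

private theorem path_avg {G : SimpleGraph V} {M K : ℕ}
    (hM : ∀ x y z v : V, M ≤ (cn G x y z v).card) {W : Finset V} (hW : W.card + K ≤ M)
    (hK : 0 < K) (x y z : V) (U : Finset V) :
    ∃ a b c : V, (a ∉ W ∧ b ∉ W ∧ c ∉ W) ∧ (G.Adj a x ∧ G.Adj a y ∧ G.Adj a z) ∧
      (G.Adj b a ∧ G.Adj b y ∧ G.Adj b z) ∧ (G.Adj c a ∧ G.Adj c b ∧ G.Adj c z) ∧
      U.card * K ^ 3 ≤ Fintype.card V ^ 3 *
        (U.filter (fun v => G.Adj v a ∧ G.Adj v b ∧ G.Adj v c)).card := by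
  set P : Finset (V × V × V) := Finset.univ.filter (fun p => (p.1 ∉ W ∧ p.2.1 ∉ W ∧ p.2.2 ∉ W) ∧
    (G.Adj p.1 x ∧ G.Adj p.1 y ∧ G.Adj p.1 z) ∧ (G.Adj p.2.1 p.1 ∧ G.Adj p.2.1 y ∧ G.Adj p.2.1 z) ∧
    (G.Adj p.2.2 p.1 ∧ G.Adj p.2.2 p.2.1 ∧ G.Adj p.2.2 z)) with hP
  have hPin : ∀ v a b c, a ∈ cn G x y z v \ W → b ∈ cn G a y z v \ W → c ∈ cn G a b z v \ W →
      (a, b, c) ∈ P ∧ (G.Adj v a ∧ G.Adj v b ∧ G.Adj v c) := by
    intro v a b c ha hb hc
    rw [Finset.mem_sdiff, cn, Finset.mem_filter] at ha hb hc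
    obtain ⟨⟨_, a1, a2, a3, a4⟩, a5⟩ := ha
    obtain ⟨⟨_, b1, b2, b3, b4⟩, b5⟩ := hb
    obtain ⟨⟨_, c1, c2, c3, c4⟩, c5⟩ := hc
    refine ⟨?_, a4.symm, b4.symm, c4.symm⟩
    rw [hP, Finset.mem_filter]
    exact ⟨Finset.mem_univ _, ⟨a5, b5, c5⟩, ⟨a1, a2, a3⟩, ⟨b1, b2, b3⟩, ⟨c1, c2, c3⟩⟩
  have hPcard : P.card ≤ Fintype.card V ^ 3 := by
    refine (Finset.card_le_univ P).trans ?_
    rw [Fintype.card_prod, Fintype.card_prod]
    exact le_of_eq (by ring)
  have hPne : P.Nonempty := by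
    rw [← Finset.card_pos]
    have := path_count hM hW x y z x P (fun a b c ha hb hc => (hPin x a b c ha hb hc).1)
    exact lt_of_lt_of_le (pow_pos hK 3) this
  have hdc : U.card * K ^ 3 ≤ ∑ p ∈ P,
      (U.filter (fun v => G.Adj v p.1 ∧ G.Adj v p.2.1 ∧ G.Adj v p.2.2)).card := by
    have h1 : ∑ p ∈ P, (U.filter (fun v => G.Adj v p.1 ∧ G.Adj v p.2.1 ∧ G.Adj v p.2.2)).card =
        ∑ v ∈ U, (P.filter (fun p => G.Adj v p.1 ∧ G.Adj v p.2.1 ∧ G.Adj v p.2.2)).card := by
      simp only [Finset.card_filter]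
      exact Finset.sum_comm
    rw [h1, ← smul_eq_mul, ← Finset.sum_const]
    refine Finset.sum_le_sum fun v _ => ?_
    refine path_count hM hW x y z v _ fun a b c ha hb hc => ?_
    rw [Finset.mem_filter]
    exact hPin v a b c ha hb hc
  by_contra hcon
  push Not at hcon
  have h2 : ∀ p ∈ P, Fintype.card V ^ 3 *
      (U.filter (fun v => G.Adj v p.1 ∧ G.Adj v p.2.1 ∧ G.Adj v p.2.2)).card < U.card * K ^ 3 := by
    rintro ⟨a, b, c⟩ hp
    rw [hP, Finset.mem_filter] at hp
    exact hcon a b c hp.2.1 hp.2.2.1 hp.2.2.2.1 hp.2.2.2.2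
  have h3 := Finset.sum_lt_sum_of_nonempty hPne h2
  rw [← Finset.mul_sum, Finset.sum_const, smul_eq_mul] at h3
  have h4 : P.card * (U.card * K ^ 3) ≤ Fintype.card V ^ 3 * (U.card * K ^ 3) :=
    Nat.mul_le_mul_right _ hPcard
  have h5 := Nat.mul_le_mul_left (Fintype.card V ^ 3) hdc
  omega

theorem path_step {G : SimpleGraph V} {M K : ℕ}
    (hM : ∀ x y z v : V, M ≤ (cn G x y z v).card)
    {H : SimpleGraph V} {W E : Finset V} (hS : St G H W) (hE : Free H W E) (hK : 0 < K)
    (hW : W.card + K ≤ M) (U : Finset V) :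
    ∃ (H' : SimpleGraph V) (W' E' R : Finset V), St G H' W' ∧ W'.card = W.card + 3 ∧ W ⊆ W' ∧
      Free H' W' E' ∧ Free H' W' R ∧ Disjoint R W ∧ E' ≠ R ∧ (¬ E' ⊆ W) ∧
      (∀ T, T ≠ E → Free H W T → Free H' W' T) ∧
      U.card * K ^ 3 ≤ Fintype.card V ^ 3 * (U.filter (fun v => ∀ r ∈ R, G.Adj v r)).card := by
  obtain ⟨x, y, z, hxy, hxz, hyz, hEq⟩ := SimpleGraph.is3Clique_iff.mp hE.2.1
  have hxW : x ∈ W := hE.1 (by rw [hEq]; simp)
  have hyW : y ∈ W := hE.1 (by rw [hEq]; simp)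
  have hzW : z ∈ W := hE.1 (by rw [hEq]; simp)
  obtain ⟨a, b, c, ⟨haW, hbW, hcW⟩, ⟨hax, hay, haz⟩, ⟨hba, hby, hbz⟩, ⟨hca, hcb, hcz⟩, hU⟩ :=
    path_avg hM hW hK x y z U
  have hEmem : ∀ t, t ∈ E ↔ t = x ∨ t = y ∨ t = z := by
    intro t; rw [hEq]; simp
  -- first step
  obtain ⟨H1, S1, F1, K1⟩ := attach hS hE haW (fun t ht => by
    rcases (hEmem t).mp ht with rfl | rfl | rfl
    · exact hax
    · exact hay
    · exact haz)
  set E1 : Finset V := insert a (E.erase x) with hE1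
  have hE1mem : ∀ t, t ∈ E1 → t = a ∨ t = y ∨ t = z := by
    intro t ht
    rw [hE1, Finset.mem_insert, Finset.mem_erase, hEmem] at ht
    tauto
  have hF1 : Free H1 (insert a W) E1 := F1 x ((hEmem x).mpr (Or.inl rfl))
  have hyE1 : y ∈ E1 := by
    rw [hE1]
    exact Finset.mem_insert_of_mem (Finset.mem_erase.mpr ⟨hxy.ne', (hEmem y).mpr (by tauto)⟩)
  have hzE1 : z ∈ E1 := by
    rw [hE1]
    exact Finset.mem_insert_of_mem (Finset.mem_erase.mpr ⟨hxz.ne', (hEmem z).mpr (by tauto)⟩)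
  have haE1 : a ∈ E1 := Finset.mem_insert_self _ _
  have hb1 : b ∉ insert a W := by
    rw [Finset.mem_insert]
    rintro (h | h)
    · exact hba.ne h
    · exact hbW h
  obtain ⟨H2, S2, F2, K2⟩ := attach S1 hF1 hb1 (fun t ht => by
    rcases hE1mem t ht with rfl | rfl | rfl
    · exact hba
    · exact hby
    · exact hbz)
  set E2 : Finset V := insert b (E1.erase y) with hE2
  have hE2mem : ∀ t, t ∈ E2 → t = a ∨ t = b ∨ t = z := by
    intro t ht
    rw [hE2, Finset.mem_insert, Finset.mem_erase] at ht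
    rcases ht with h | ⟨h, h'⟩
    · exact Or.inr (Or.inl h)
    · rcases hE1mem t h' with h'' | h'' | h''
      · exact Or.inl h''
      · exact absurd h'' h
      · exact Or.inr (Or.inr h'')
  have hF2 : Free H2 (insert b (insert a W)) E2 := F2 y hyE1
  have hay' : a ≠ y := fun h => haW (h ▸ hyW)
  have haz' : a ≠ z := fun h => haW (h ▸ hzW)
  have hcz' : c ≠ z := fun h => hcW (h ▸ hzW)
  have haE2 : a ∈ E2 := Finset.mem_insert_of_mem (Finset.mem_erase.mpr ⟨hay', haE1⟩)
  have hzE2 : z ∈ E2 := Finset.mem_insert_of_mem (Finset.mem_erase.mpr ⟨hyz.ne', hzE1⟩)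
  have hbE2 : b ∈ E2 := Finset.mem_insert_self _ _
  have hc1 : c ∉ insert b (insert a W) := by
    rw [Finset.mem_insert, Finset.mem_insert]
    rintro (h | h | h)
    · exact hcb.ne h
    · exact hca.ne h
    · exact hcW h
  obtain ⟨H3, S3, F3, K3⟩ := attach S2 hF2 hc1 (fun t ht => by
    rcases hE2mem t ht with rfl | rfl | rfl
    · exact hca
    · exact hcb
    · exact hcz)
  have hR : ∀ r, r ∈ insert c (E2.erase z) → r = a ∨ r = b ∨ r = c := by
    intro r hr
    rw [Finset.mem_insert, Finset.mem_erase] at hr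
    rcases hr with h | ⟨h, h'⟩
    · exact Or.inr (Or.inr h)
    · rcases hE2mem r h' with h'' | h'' | h''
      · exact Or.inl h''
      · exact Or.inr (Or.inl h'')
      · exact absurd h'' h
  refine ⟨H3, insert c (insert b (insert a W)), insert c (E2.erase a), insert c (E2.erase z), S3,
    ?_, ?_, F3 a haE2, F3 z hzE2, ?_, ?_, ?_, ?_, ?_⟩
  · rw [Finset.card_insert_of_notMem hc1, Finset.card_insert_of_notMem hb1,
      Finset.card_insert_of_notMem haW]
  · intro t ht
    exact Finset.mem_insert_of_mem (Finset.mem_insert_of_mem (Finset.mem_insert_of_mem ht))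
  · rw [Finset.disjoint_left]
    intro r hr
    rcases hR r hr with rfl | rfl | rfl
    · exact haW
    · exact hbW
    · exact hcW
  · intro h
    have h1 : z ∈ insert c (E2.erase a) :=
      Finset.mem_insert_of_mem (Finset.mem_erase.mpr ⟨haz'.symm, hzE2⟩)
    rw [h, Finset.mem_insert, Finset.mem_erase] at h1
    rcases h1 with h1 | h1
    · exact hcz' h1.symm
    · exact h1.1 rfl
  · intro h
    exact hcW (h (Finset.mem_insert_self _ _))
  · intro T hTE hT
    have hT1 : T ≠ E1 := fun h => haW (hT.1 (h ▸ haE1))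
    have hT2 : T ≠ E2 := fun h => hbW (hT.1 (h ▸ hbE2))
    exact K3 T hT2 (K2 T hT1 (K1 T hTE hT))
  · refine hU.trans (Nat.mul_le_mul_left _ (Finset.card_le_card ?_))
    intro v hv
    rw [Finset.mem_filter] at hv ⊢
    refine ⟨hv.1, fun r hr => ?_⟩
    rcases hR r hr with rfl | rfl | rfl
    · exact hv.2.1
    · exact hv.2.2.1
    · exact hv.2.2.2

end MK
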