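import Pool.Agent.MZ.Main

/-!
# Minors
-/

open scoped Classical
open Finset

namespace MK

/-- `K` is a minor of `G`: there are pairwise disjoint non-empty connected vertex sets `B u` of `G`,
one for every vertex `u` of `K`, with an edge of `G` between `B u` and `B w` whenever `u` and `w`
are adjacent in `K`. -/
def IsMinor {U V : Type} (K : SimpleGraph U) (G : SimpleGraph V) : Prop :=
  ∃ B : U → Set V, (∀ u, (G.induce (B u)).Connected) ∧
    (∀ u w, u ≠ w → Disjoint (B u) (B w)) ∧
    ∀ u w, K.Adj u w → ∃ a ∈ B u, ∃ b ∈ B w, G.Adj a b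

end MK
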