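import Pool.Agent.MK.Sep

/-!
# Graphs without a complete minor on five vertices: separators containing triangles give 3-trees
-/

open scoped Classical
open Finset

namespace MK

open MZ

variable {V : Type} [Fintype V]

/-- a connected part without edges to the rest -/
theorem conn_part (G : SimpleGraph V) {A : Finset V} (hA : A.Nonempty) :
    ∃ A' ⊆ A, Conn G A' ∧ ∀ a ∈ A', ∀ b ∈ A \ A', ¬ G.Adj a b := by
  set F : Finset (Finset V) := A.powerset.filter (fun C => C.Nonempty ∧
    ∀ a ∈ C, ∀ b ∈ A \ C, ¬ G.Adj a b) with hF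
  have hne : F.Nonempty := by
    refine ⟨A, Finset.mem_filter.2 ⟨Finset.mem_powerset_self A, hA, ?_⟩⟩
    intro a _ b hb
    rw [Finset.sdiff_self] at hb
    exact absurd hb (Finset.notMem_empty b)
  obtain ⟨A', hA', hmin⟩ := Finset.exists_min_image F Finset.card hne
  rw [hF, Finset.mem_filter, Finset.mem_powerset] at hA'
  obtain ⟨hsub, hne', hno⟩ := hA'
  refine ⟨A', hsub, ⟨hne', ?_⟩, hno⟩
  intro C D hC hD hCD hu
  by_contra hcon
  push Not at hcon
  have hCA' : C ⊆ A' := hu ▸ Finset.subset_union_left
  have hDA' : D ⊆ A' := hu ▸ Finset.subset_union_right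
  have hCF : C ∈ F := by
    rw [hF, Finset.mem_filter, Finset.mem_powerset]
    refine ⟨hCA'.trans hsub, hC, ?_⟩
    intro a ha b hb
    rw [Finset.mem_sdiff] at hb
    by_cases hbA' : b ∈ A'
    · have hbD : b ∈ D := by
        rw [← hu, Finset.mem_union] at hbA'
        exact hbA'.resolve_left hb.2
      exact hcon a ha b hbD
    · exact hno a (hCA' ha) b (Finset.mem_sdiff.2 ⟨hb.1, hbA'⟩)
  have h1 := hmin C hCF
  have h2 : C.card + D.card = A'.card := by
    rw [← Finset.card_union_of_disjoint hCD, hu]
  have h3 := Finset.card_pos.2 hD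
  omega

/-- a separation with a smallest separator -/
theorem min_sep {G : SimpleGraph V} {W : Finset V} (hW : ¬ G.IsClique (W : Set V)) :
    ∃ X A B A' B', Sepn G W X A B ∧ A' ⊆ A ∧ B' ⊆ B ∧ Conn G A' ∧ Conn G B' ∧
      ∀ x ∈ X, (∃ a ∈ A', G.Adj x a) ∧ (∃ b ∈ B', G.Adj x b) := by
  set F : Finset (Finset V) := W.powerset.filter (fun X => ∃ A B, Sepn G W X A B) with hF
  have hne : F.Nonempty := by
    rw [SimpleGraph.isClique_iff, Set.Pairwise] at hW
    push Not at hW
    obtain ⟨a, ha, b, hb, hab, hn⟩ := hW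
    rw [Finset.mem_coe] at ha hb
    have hs : (W.erase a).erase b ⊆ W := (Finset.erase_subset _ _).trans (Finset.erase_subset _ _)
    refine ⟨(W.erase a).erase b, Finset.mem_filter.2 ⟨Finset.mem_powerset.2 hs, {a}, {b}, hs,
      Finset.singleton_nonempty _, Finset.singleton_nonempty _, ?_, ?_, ?_⟩⟩
    · rw [Finset.disjoint_singleton]
      exact hab
    · ext x
      simp only [Finset.mem_union, Finset.mem_singleton, Finset.mem_sdiff, Finset.mem_erase]
      constructor
      · rintro (rfl | rfl)
        · exact ⟨ha, fun h => h.2.1 rfl⟩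
        · exact ⟨hb, fun h => h.1 rfl⟩
      · rintro ⟨hx, h⟩
        by_contra hcon
        push Not at hcon
        exact h ⟨hcon.2, hcon.1, hx⟩
    · intro x hx y hy
      rw [Finset.mem_singleton] at hx hy
      subst hx
      subst hy
      exact hn
  obtain ⟨X, hX, hmin⟩ := Finset.exists_min_image F Finset.card hne
  obtain ⟨hXp, A, B, hs⟩ := Finset.mem_filter.1 hX
  have hmin' : ∀ x ∈ X, ∀ C D, ¬ Sepn G W (X.erase x) C D := by
    intro x hx C D h
    have h1 := hmin (X.erase x) (Finset.mem_filter.2 ⟨Finset.mem_powerset.2 h.1, C, D, h⟩)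
    rw [Finset.card_erase_of_mem hx] at h1
    have := Finset.card_pos.2 ⟨x, hx⟩
    omega
  obtain ⟨hXW, hA, hB, hAB, hu, hno⟩ := hs
  obtain ⟨A', hA'A, hcA', hA'⟩ := conn_part G hA
  obtain ⟨B', hB'B, hcB', hB'⟩ := conn_part G hB
  have hAW : ∀ a ∈ A, a ∈ W ∧ a ∉ X := by
    intro a ha
    exact Finset.mem_sdiff.1 (hu ▸ Finset.mem_union_left _ ha)
  have hBW : ∀ b ∈ B, b ∈ W ∧ b ∉ X := by
    intro b hb
    exact Finset.mem_sdiff.1 (hu ▸ Finset.mem_union_right _ hb)
  -- a vertex of the separator has neighbours in every part that has no edges to the rest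
  have key : ∀ C ⊆ W \ X, C.Nonempty → (∃ d, d ∈ (W \ X) \ C) →
      (∀ a ∈ C, ∀ b ∈ (W \ X) \ C, ¬ G.Adj a b) → ∀ x ∈ X, ∃ a ∈ C, G.Adj x a := by
    intro C hC hCne hD hnoC x hx
    by_contra hcon
    push Not at hcon
    have hxW := hXW hx
    apply hmin' x hx C (insert x ((W \ X) \ C))
    refine ⟨(Finset.erase_subset _ _).trans hXW, hCne, Finset.insert_nonempty _ _, ?_, ?_, ?_⟩
    · rw [Finset.disjoint_insert_right]
      exact ⟨fun h => (Finset.mem_sdiff.1 (hC h)).2 hx, Finset.disjoint_sdiff⟩
    · ext y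
      simp only [Finset.mem_union, Finset.mem_insert, Finset.mem_sdiff, Finset.mem_erase]
      constructor
      · rintro (h | rfl | h)
        · have := Finset.mem_sdiff.1 (hC h)
          exact ⟨this.1, fun h' => this.2 h'.2⟩
        · exact ⟨hxW, fun h' => h'.1 rfl⟩
        · exact ⟨h.1.1, fun h' => h.1.2 h'.2⟩
      · rintro ⟨hy, h⟩
        by_cases hyC : y ∈ C
        · exact Or.inl hyC
        · right
          by_cases hyx : y = x
          · exact Or.inl hyx
          · exact Or.inr ⟨⟨hy, fun h' => h ⟨hyx, h'⟩⟩, hyC⟩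
    · intro a ha b hb
      rcases Finset.mem_insert.1 hb with rfl | hb
      · exact fun h => hcon a ha h.symm
      · exact hnoC a ha b hb
  refine ⟨X, A, B, A', B', ⟨hXW, hA, hB, hAB, hu, hno⟩, hA'A, hB'B, hcA', hcB', ?_⟩
  intro x hx
  constructor
  · apply key A' (fun a ha => Finset.mem_sdiff.2 (hAW a (hA'A ha))) hcA'.1 _ _ x hx
    · obtain ⟨b, hb⟩ := hB
      exact ⟨b, Finset.mem_sdiff.2 ⟨Finset.mem_sdiff.2 (hBW b hb),
        fun h => Finset.disjoint_left.1 hAB (hA'A h) hb⟩⟩
    · intro a ha b hb
      rw [Finset.mem_sdiff, ← hu, Finset.mem_union] at hb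
      rcases hb.1 with h | h
      · exact hA' a ha b (Finset.mem_sdiff.2 ⟨h, hb.2⟩)
      · exact hno a (hA'A ha) b h
  · apply key B' (fun b hb => Finset.mem_sdiff.2 (hBW b (hB'B hb))) hcB'.1 _ _ x hx
    · obtain ⟨a, ha⟩ := hA
      exact ⟨a, Finset.mem_sdiff.2 ⟨Finset.mem_sdiff.2 (hAW a ha),
        fun h => Finset.disjoint_left.1 hAB ha (hB'B h)⟩⟩
    · intro a ha b hb
      rw [Finset.mem_sdiff, ← hu, Finset.mem_union] at hb
      rcases hb.1 with h | h
      · exact fun h' => hno b h a (hB'B ha) h'.symm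
      · exact hB' a ha b (Finset.mem_sdiff.2 ⟨h, hb.2⟩)

/-- five explicit sets -/
theorem minor_of_sets {G : SimpleGraph V} {x y z : V} {A B : Finset V} (hxy : G.Adj x y)
    (hxz : G.Adj x z) (hyz : G.Adj y z) (hA : Conn G A) (hB : Conn G B) (hAB : Disjoint A B)
    (hxA : x ∉ A) (hyA : y ∉ A) (hzA : z ∉ A) (hxB : x ∉ B) (hyB : y ∉ B) (hzB : z ∉ B)
    (h1 : ∃ a ∈ A, G.Adj x a) (h2 : ∃ a ∈ A, G.Adj y a) (h3 : ∃ a ∈ A, G.Adj z a)
    (h4 : ∃ a ∈ B, G.Adj x a) (h5 : ∃ a ∈ B, G.Adj y a) (h6 : ∃ a ∈ B, G.Adj z a)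
    (h7 : ∃ a ∈ A, ∃ b ∈ B, G.Adj a b) : IsMinor (⊤ : SimpleGraph (Fin 5)) G := by
  apply minor_of_five ![{x}, {y}, {z}, A, B]
  · intro i
    fin_cases i
    · exact conn_singleton G x
    · exact conn_singleton G y
    · exact conn_singleton G z
    · exact hA
    · exact hB
  · intro i j hij
    fin_cases i <;> fin_cases j <;> first
      | exact absurd hij (by decide)
      | exact Finset.disjoint_singleton.2 hxy.ne
      | exact Finset.disjoint_singleton.2 hxz.ne
      | exact Finset.disjoint_singleton.2 hyz.ne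
      | exact Finset.disjoint_singleton_left.2 hxA
      | exact Finset.disjoint_singleton_left.2 hyA
      | exact Finset.disjoint_singleton_left.2 hzA
      | exact Finset.disjoint_singleton_left.2 hxB
      | exact Finset.disjoint_singleton_left.2 hyB
      | exact Finset.disjoint_singleton_left.2 hzB
      | exact hAB
  · have hs : ∀ (u : V) (C : Finset V), (∃ a ∈ C, G.Adj u a) →
        ∃ a ∈ ({u} : Finset V), ∃ b ∈ C, G.Adj a b := by
      rintro u C ⟨a, ha, hua⟩
      exact ⟨u, Finset.mem_singleton_self u, a, ha, hua⟩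
    have hs2 : ∀ u w : V, G.Adj u w → ∃ a ∈ ({u} : Finset V), ∃ b ∈ ({w} : Finset V), G.Adj a b := by
      intro u w h
      exact ⟨u, Finset.mem_singleton_self u, w, Finset.mem_singleton_self w, h⟩
    intro i j hij
    fin_cases i <;> fin_cases j <;> first
      | exact absurd hij (by decide)
      | exact hs2 x y hxy
      | exact hs2 x z hxz
      | exact hs2 y z hyz
      | exact hs x A h1
      | exact hs y A h2
      | exact hs z A h3
      | exact hs x B h4
      | exact hs y B h5
      | exact hs z B h6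
      | exact h7

/-- if every separator contains a triangle and there is no complete minor on five vertices, then
some separator is a triangle -/
theorem sep_triangle {G : SimpleGraph V} (hK : ¬ IsMinor (⊤ : SimpleGraph (Fin 5)) G)
    {W : Finset V} (hS : SepTri G W) (hW : ¬ G.IsClique (W : Set V)) :
    ∃ X A B, Sepn G W X A B ∧ G.IsNClique 3 X := by
  obtain ⟨X, A, B, A', B', hs, hA', hB', hcA, hcB, hx⟩ := min_sep hW
  obtain ⟨T, hTX, hT⟩ := hS X A B hs
  refine ⟨X, A, B, hs, ?_⟩
  by_cases hTX' : X ⊆ T
  · rwa [Finset.Subset.antisymm hTX' hTX]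
  exfalso
  obtain ⟨w, hwX, hwT⟩ := Finset.not_subset.1 hTX'
  obtain ⟨x, y, z, hxy, hxz, hyz, rfl⟩ := SimpleGraph.is3Clique_iff.1 hT
  have hxX : x ∈ X := hTX (by simp)
  have hyX : y ∈ X := hTX (by simp)
  have hzX : z ∈ X := hTX (by simp)
  have hnA : ∀ v ∈ X, v ∉ A' := by
    intro v hv hvA
    have : v ∈ W \ X := hs.2.2.2.2.1 ▸ Finset.mem_union_left _ (hA' hvA)
    exact (Finset.mem_sdiff.1 this).2 hv
  have hnB : ∀ v ∈ X, v ∉ B' := by
    intro v hv hvB
    have : v ∈ W \ X := hs.2.2.2.2.1 ▸ Finset.mem_union_right _ (hB' hvB)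
    exact (Finset.mem_sdiff.1 this).2 hv
  have hwx : ∀ v ∈ ({x, y, z} : Finset V), v ∉ insert w B' := by
    intro v hv h
    rcases Finset.mem_insert.1 h with rfl | h
    · exact hwT hv
    · exact hnB v (hTX hv) h
  obtain ⟨b, hb, hwb⟩ := (hx w hwX).2
  obtain ⟨a, ha, hwa⟩ := (hx w hwX).1
  have hup : ∀ v ∈ X, ∃ b ∈ insert w B', G.Adj v b := by
    intro v hv
    obtain ⟨b, hb, hvb⟩ := (hx v hv).2
    exact ⟨b, Finset.mem_insert_of_mem hb, hvb⟩
  apply hK
  apply minor_of_sets hxy hxz hyz hcA (conn_insert hcB hb hwb) _ (hnA x hxX) (hnA y hyX)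
    (hnA z hzX) (hwx x (by simp)) (hwx y (by simp)) (hwx z (by simp)) (hx x hxX).1 (hx y hyX).1
    (hx z hzX).1 (hup x hxX) (hup y hyX) (hup z hzX) ⟨a, ha, w, Finset.mem_insert_self _ _, hwa.symm⟩
  rw [Finset.disjoint_insert_right]
  exact ⟨hnA w hwX, hs.2.2.2.1.mono hA' hB'⟩

/-- the two sides of a triangle separator inherit the property -/
theorem sepTri_side {G : SimpleGraph V} {W X A B : Finset V} (hS : SepTri G W)
    (hs : Sepn G W X A B) (hX : G.IsNClique 3 X) : SepTri G (A ∪ X) := by
  intro Y C D hY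
  obtain ⟨hYW, hC, hD, hCD, hCDu, hno⟩ := hY
  obtain ⟨hXW, hA, hB, hAB, hABu, hABno⟩ := hs
  by_contra hcon
  push Not at hcon
  have hXY : ∃ x ∈ X, x ∉ Y := by
    by_contra h
    push Not at h
    exact hcon X h hX
  obtain ⟨x, hxX, hxY⟩ := hXY
  -- we may assume that `x` lies in the first part
  have key : ∀ C D : Finset V, C.Nonempty → D.Nonempty → Disjoint C D → C ∪ D = (A ∪ X) \ Y →
      (∀ a ∈ C, ∀ b ∈ D, ¬ G.Adj a b) → x ∈ C → False := by
    intro C D hC hD hCD hCDu hno hxC
    have hDX : ∀ d ∈ D, d ∉ X := by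
      intro d hd hdX
      apply hno x hxC d hd
      apply hX.isClique hxX hdX
      rintro rfl
      exact Finset.disjoint_left.1 hCD hxC hd
    have hDA : ∀ d ∈ D, d ∈ A := by
      intro d hd
      have : d ∈ (A ∪ X) \ Y := hCDu ▸ Finset.mem_union_right _ hd
      rcases Finset.mem_union.1 (Finset.mem_sdiff.1 this).1 with h | h
      · exact h
      · exact absurd h (hDX d hd)
    have hYB : ∀ b ∈ B, b ∉ Y := by
      intro b hb hbY
      rcases Finset.mem_union.1 (hYW hbY) with h | h
      · exact Finset.disjoint_left.1 hAB h hb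
      · have : b ∈ W \ X := hABu ▸ Finset.mem_union_right _ hb
        exact (Finset.mem_sdiff.1 this).2 h
    have hAW : A ⊆ W := by
      intro a ha
      have : a ∈ W \ X := hABu ▸ Finset.mem_union_left _ ha
      exact (Finset.mem_sdiff.1 this).1
    have hBW : B ⊆ W := by
      intro a ha
      have : a ∈ W \ X := hABu ▸ Finset.mem_union_right _ ha
      exact (Finset.mem_sdiff.1 this).1
    have hYW' : Y ⊆ W := hYW.trans (Finset.union_subset hAW hXW)
    obtain ⟨T, hTY, hT⟩ := hS Y (C ∪ B) D ⟨hYW', hC.mono Finset.subset_union_left, hD, by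
      rw [Finset.disjoint_union_left]
      refine ⟨hCD, ?_⟩
      rw [Finset.disjoint_left]
      intro b hb hbD
      exact Finset.disjoint_left.1 hAB (hDA b hbD) hb, by
      ext v
      rw [Finset.mem_union, Finset.mem_union, Finset.mem_sdiff]
      constructor
      · rintro ((h | h) | h)
        · have : v ∈ (A ∪ X) \ Y := hCDu ▸ Finset.mem_union_left _ h
          rw [Finset.mem_sdiff] at this
          exact ⟨Finset.union_subset hAW hXW this.1, this.2⟩
        · exact ⟨hBW h, hYB v h⟩
        · have : v ∈ (A ∪ X) \ Y := hCDu ▸ Finset.mem_union_right _ h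
          rw [Finset.mem_sdiff] at this
          exact ⟨Finset.union_subset hAW hXW this.1, this.2⟩
      · rintro ⟨hvW, hvY⟩
        by_cases hvB : v ∈ B
        · exact Or.inl (Or.inr hvB)
        have hvAX : v ∈ A ∪ X := by
          rw [Finset.mem_union]
          by_cases hvX : v ∈ X
          · exact Or.inr hvX
          · left
            have : v ∈ A ∪ B := by
              rw [hABu, Finset.mem_sdiff]
              exact ⟨hvW, hvX⟩
            exact (Finset.mem_union.1 this).resolve_right hvB
        have : v ∈ C ∪ D := by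
          rw [hCDu, Finset.mem_sdiff]
          exact ⟨hvAX, hvY⟩
        rcases Finset.mem_union.1 this with h | h
        · exact Or.inl (Or.inl h)
        · exact Or.inr h, by
      intro a ha b hb
      rcases Finset.mem_union.1 ha with h | h
      · exact hno a h b hb
      · exact fun h' => hABno b (hDA b hb) a h h'.symm⟩
    exact hcon T hTY hT
  have hxCD : x ∈ C ∪ D := by
    rw [hCDu, Finset.mem_sdiff]
    exact ⟨Finset.mem_union_right _ hxX, hxY⟩
  rcases Finset.mem_union.1 hxCD with h | h
  · exact key C D hC hD hCD hCDu hno h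
  · exact key D C hD hC hCD.symm (by rw [Finset.union_comm]; exact hCDu)
      (fun a ha b hb h' => hno b hb a ha h'.symm) h

theorem Sepn.symm {G : SimpleGraph V} {W X A B : Finset V} (h : Sepn G W X A B) :
    Sepn G W X B A := by
  obtain ⟨h1, h2, h3, h4, h5, h6⟩ := h
  exact ⟨h1, h3, h2, h4.symm, by rw [Finset.union_comm]; exact h5,
    fun a ha b hb h' => h6 b hb a ha h'.symm⟩

/-- the neighbourhood of `v` in `W` is a clique -/
def Simp (G : SimpleGraph V) (W : Finset V) (v : V) : Prop :=
  G.IsClique ((W.filter (fun w => G.Adj v w) : Finset V) : Set V)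

/-- Dirac's induction -/
theorem simplicial_pair {G : SimpleGraph V} (hK : ¬ IsMinor (⊤ : SimpleGraph (Fin 5)) G)
    (W : Finset V) (hS : SepTri G W) (hW : ¬ G.IsClique (W : Set V)) :
    ∃ a ∈ W, ∃ b ∈ W, a ≠ b ∧ ¬ G.Adj a b ∧ Simp G W a ∧ Simp G W b := by
  induction hn : W.card using Nat.strong_induction_on generalizing W with
  | _ n ih =>
    obtain ⟨X, A, B, hs, hX⟩ := sep_triangle hK hS hW
    -- a simplicial vertex in each side
    have key : ∀ A B : Finset V, Sepn G W X A B → ∃ a ∈ A, Simp G W a := by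
      intro A B hs
      have hS' := sepTri_side hS hs hX
      obtain ⟨hXW, hA, hB, hAB, hABu, hABno⟩ := hs
      have hsub : ∀ a ∈ A, Simp G (A ∪ X) a → Simp G W a := by
        intro a ha h
        unfold Simp at h ⊢
        apply h.subset
        intro w hw
        rw [Finset.mem_coe, Finset.mem_filter] at hw ⊢
        refine ⟨?_, hw.2⟩
        by_contra hcon
        rw [Finset.mem_union, not_or] at hcon
        have : w ∈ A ∪ B := by
          rw [hABu, Finset.mem_sdiff]
          exact ⟨hw.1, hcon.2⟩
        exact hABno a ha w ((Finset.mem_union.1 this).resolve_left hcon.1) hw.2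
      by_cases hcl : G.IsClique ((A ∪ X : Finset V) : Set V)
      · obtain ⟨a, ha⟩ := hA
        refine ⟨a, ha, hsub a ha ?_⟩
        apply hcl.subset
        intro w hw
        rw [Finset.mem_coe, Finset.mem_filter] at hw
        exact_mod_cast hw.1
      · have hcard : (A ∪ X).card < W.card := by
          apply Finset.card_lt_card
          rw [Finset.ssubset_iff_subset_ne]
          constructor
          · intro v hv
            rcases Finset.mem_union.1 hv with h | h
            · have : v ∈ W \ X := hABu ▸ Finset.mem_union_left _ h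
              exact (Finset.mem_sdiff.1 this).1
            · exact hXW h
          · intro h
            obtain ⟨b, hb⟩ := hB
            have hb1 : b ∈ W \ X := hABu ▸ Finset.mem_union_right _ hb
            rw [Finset.mem_sdiff] at hb1
            have hb2 : b ∈ A ∪ X := h ▸ hb1.1
            rcases Finset.mem_union.1 hb2 with h' | h'
            · exact Finset.disjoint_left.1 hAB h' hb
            · exact hb1.2 h'
        obtain ⟨a, ha, b, hb, hab, hadj, h1, h2⟩ := ih (A ∪ X).card (hn ▸ hcard) (A ∪ X) hS' hcl rfl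
        by_cases haX : a ∈ X
        · have hbX : b ∉ X := fun h => hadj (hX.isClique haX h hab)
          exact ⟨b, (Finset.mem_union.1 hb).resolve_right hbX,
            hsub b ((Finset.mem_union.1 hb).resolve_right hbX) h2⟩
        · exact ⟨a, (Finset.mem_union.1 ha).resolve_right haX,
            hsub a ((Finset.mem_union.1 ha).resolve_right haX) h1⟩
    obtain ⟨a, ha, h1⟩ := key A B hs
    obtain ⟨b, hb, h2⟩ := key B A hs.symm
    obtain ⟨hXW, hA, hB, hAB, hABu, hABno⟩ := hs
    have haW : a ∈ W \ X := hABu ▸ Finset.mem_union_left _ ha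
    have hbW : b ∈ W \ X := hABu ▸ Finset.mem_union_right _ hb
    refine ⟨a, (Finset.mem_sdiff.1 haW).1, b, (Finset.mem_sdiff.1 hbW).1, ?_, hABno a ha b hb,
      h1, h2⟩
    rintro rfl
    exact Finset.disjoint_left.1 hAB ha hb

/-- if every separator contains a triangle and there is no complete minor on five vertices, then
the induced subgraph is a 3-tree -/
theorem tree3_of_sepTri {G : SimpleGraph V} (hK : ¬ IsMinor (⊤ : SimpleGraph (Fin 5)) G)
    (W : Finset V) (h4 : 4 ≤ W.card) (hS : SepTri G W) : IsTree3 G W := by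
  induction hn : W.card using Nat.strong_induction_on generalizing W with
  | _ n ih =>
    by_cases hW : G.IsClique (W : Set V)
    · have h5 := cliqueFree_five hK
      have : W.card = 4 := by
        by_contra hcon
        obtain ⟨t, ht, htc⟩ := Finset.exists_subset_card_eq (s := W) (n := 5) (by omega)
        exact h5 t ⟨hW.subset (by exact_mod_cast ht), htc⟩
      exact IsTree3.base W ⟨hW, this⟩
    obtain ⟨v, hv, b, hb, hvb, hadj, hsim, -⟩ := simplicial_pair hK W hS hW
    unfold Simp at hsim
    set N : Finset V := W.filter (fun w => G.Adj v w) with hN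
    have hNW : N ⊆ W := Finset.filter_subset _ _
    have hvN : v ∉ N := fun h => G.loopless.irrefl v ((Finset.mem_filter.1 h).2)
    have hbN : b ∉ N := fun h => hadj ((Finset.mem_filter.1 h).2)
    have hins : G.IsClique ((insert v N : Finset V) : Set V) := by
      rw [Finset.coe_insert]
      refine hsim.insert ?_
      intro b hb _
      exact (Finset.mem_filter.1 (Finset.mem_coe.1 hb)).2
    have hcard : (insert v N).card = N.card + 1 := Finset.card_insert_of_notMem hvN
    have hle : N.card ≤ 3 := by
      by_contra hcon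
      push Not at hcon
      obtain ⟨t, ht, htc⟩ := Finset.exists_subset_card_eq (s := insert v N) (n := 5) (by omega)
      exact cliqueFree_five hK t ⟨hins.subset (by exact_mod_cast ht), htc⟩
    have hsepN : Sepn G W N {v} ((W \ N) \ {v}) := by
      refine ⟨hNW, Finset.singleton_nonempty v, ⟨b, ?_⟩, Finset.disjoint_sdiff, ?_, ?_⟩
      · rw [Finset.mem_sdiff, Finset.mem_sdiff, Finset.mem_singleton]
        exact ⟨⟨hb, hbN⟩, hvb.symm⟩
      · exact Finset.union_sdiff_of_subset
          (Finset.singleton_subset_iff.2 (Finset.mem_sdiff.2 ⟨hv, hvN⟩))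
      · intro a ha c hc hac
        rw [Finset.mem_singleton] at ha
        subst ha
        rw [Finset.mem_sdiff, Finset.mem_sdiff] at hc
        exact hc.1.2 (Finset.mem_filter.2 ⟨hc.1.1, hac⟩)
    obtain ⟨T, hTN, hT⟩ := hS _ _ _ hsepN
    have hTeq : T = N := Finset.eq_of_subset_of_card_le hTN (by rw [hT.card_eq]; exact hle)
    subst hTeq
    have hN3 := hT.card_eq
    have hNE : N ⊆ W.erase v := by
      intro x hx
      refine Finset.mem_erase.2 ⟨?_, hNW hx⟩
      rintro rfl
      exact hvN hx
    have hEc : (W.erase v).card = W.card - 1 := Finset.card_erase_of_mem hv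
    have hbE : b ∈ W.erase v := Finset.mem_erase.2 ⟨hvb.symm, hb⟩
    have h4' : 4 ≤ (W.erase v).card := by
      have : (insert b N).card ≤ (W.erase v).card :=
        Finset.card_le_card (Finset.insert_subset hbE hNE)
      rw [Finset.card_insert_of_notMem hbN] at this
      omega
    have hS' : SepTri G (W.erase v) := by
      intro Y C D hY
      obtain ⟨hYW, hC, hD, hCD, hCDu, hno⟩ := hY
      by_contra hcon
      push Not at hcon
      have hvY : v ∉ Y := fun h => (Finset.mem_erase.1 (hYW h)).1 rfl
      have hYW' : Y ⊆ W := hYW.trans (Finset.erase_subset _ _)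
      obtain ⟨x, hxN, hxY⟩ : ∃ x ∈ N, x ∉ Y := by
        by_contra h
        push Not at h
        exact hcon N h hT
      have key : ∀ C D : Finset V, C.Nonempty → D.Nonempty → Disjoint C D →
          C ∪ D = (W.erase v) \ Y → (∀ a ∈ C, ∀ b ∈ D, ¬ G.Adj a b) → x ∈ C → False := by
        intro C D hC hD hCD hCDu hno hxC
        have hDN : ∀ d ∈ D, d ∉ N := by
          intro d hd hdN
          apply hno x hxC d hd
          apply hT.isClique hxN hdN
          rintro rfl
          exact Finset.disjoint_left.1 hCD hxC hd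
        have hDW : ∀ d ∈ D, d ∈ W.erase v := by
          intro d hd
          have : d ∈ (W.erase v) \ Y := hCDu ▸ Finset.mem_union_right _ hd
          exact (Finset.mem_sdiff.1 this).1
        obtain ⟨T, hTY, hT'⟩ := hS Y (insert v C) D ⟨hYW', Finset.insert_nonempty _ _, hD, by
          rw [Finset.disjoint_insert_left]
          exact ⟨fun h => (Finset.mem_erase.1 (hDW v h)).1 rfl, hCD⟩, by
          rw [Finset.insert_union, hCDu]
          ext u
          rw [Finset.mem_insert, Finset.mem_sdiff, Finset.mem_sdiff, Finset.mem_erase]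
          constructor
          · rintro (rfl | h)
            · exact ⟨hv, hvY⟩
            · exact ⟨h.1.2, h.2⟩
          · rintro ⟨h, h'⟩
            by_cases huv : u = v
            · exact Or.inl huv
            · exact Or.inr ⟨⟨huv, h⟩, h'⟩, by
          intro a ha d hd had
          rcases Finset.mem_insert.1 ha with rfl | h
          · exact hDN d hd (Finset.mem_filter.2 ⟨(Finset.mem_erase.1 (hDW d hd)).2, had⟩)
          · exact hno a h d hd had⟩
        exact hcon T hTY hT'
      have hxCD : x ∈ C ∪ D := by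
        rw [hCDu, Finset.mem_sdiff]
        exact ⟨hNE hxN, hxY⟩
      rcases Finset.mem_union.1 hxCD with h | h
      · exact key C D hC hD hCD hCDu hno h
      · exact key D C hD hC hCD.symm (by rw [Finset.union_comm]; exact hCDu)
          (fun a ha b hb h' => hno b hb a ha h'.symm) h
    have hWpos : 0 < W.card := by omega
    have hstep := IsTree3.step (H := G) (W.erase v) N v
      (ih (W.erase v).card (by omega) (W.erase v) h4' hS' rfl) hNE hT
      (Finset.notMem_erase v W) (by
        intro w hw
        constructor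
        · intro h
          exact Finset.mem_filter.2 ⟨(Finset.mem_erase.1 hw).2, h⟩
        · intro h
          exact (Finset.mem_filter.1 h).2)
    rwa [Finset.insert_erase hv] at hstep

end MK
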