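import Pool.Agent.MK.K5

/-!
# The Minkowski dimension for graphs without a complete minor on five vertices
-/

open scoped Pointwise Classical
open Finset

namespace MK

open MZ

variable {V : Type} [Fintype V]

/-- the counting condition for a set without triangles -/
theorem numFl_of_noTri {G : SimpleGraph V} {X : Finset V}
    (h : ∀ T ⊆ X, ¬ G.IsNClique 3 T) : numFl G X = numCl G X := by
  unfold numFl numCl
  have hf : X.powerset.filter (fun e : Finset V => G.IsNClique 2 e)
      = X.powerset.filter (fun K : Finset V => 2 ≤ K.card ∧ G.IsClique (K : Set V)) := by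
    apply Finset.filter_congr
    intro e he
    rw [Finset.mem_powerset] at he
    rw [SimpleGraph.isNClique_iff]
    constructor
    · rintro ⟨h1, h2⟩
      exact ⟨h2.ge, h1⟩
    · rintro ⟨h1, h2⟩
      refine ⟨h2, ?_⟩
      by_contra hcon
      obtain ⟨t, ht, htc⟩ := Finset.exists_subset_card_eq (s := e) (n := 3) (by omega)
      exact h t (ht.trans he) ⟨h2.subset (by exact_mod_cast ht), htc⟩
  rw [← hf, Finset.card_eq_sum_ones]
  apply Finset.sum_congr rfl
  intro e he
  rw [Finset.mem_filter, Finset.mem_powerset] at he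
  obtain ⟨h1, h2⟩ := he
  have : X.filter (fun w => ∀ v ∈ e, G.Adj w v) = ∅ := by
    rw [Finset.filter_eq_empty_iff]
    intro w hw hall
    have hwe : G.IsNClique 3 (insert w e) := h2.insert hall
    exact h _ (Finset.insert_subset hw h1) hwe
  rw [this, Finset.card_empty, pow_zero]

/-- the counting condition gives that every separator contains a triangle -/
theorem sepTri_of_count {G : SimpleGraph V} {W : Finset V}
    (hc : ∀ X ⊆ W, comps G (W \ X) + numCl G X ≤ numFl G X + 1) : SepTri G W := by
  intro X A B hs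
  by_contra hcon
  push Not at hcon
  obtain ⟨hXW, hA, hB, hAB, hu, hno⟩ := hs
  have h1 := two_le_comps hA hB hAB hno
  rw [hu] at h1
  have h2 := hc X hXW
  rw [numFl_of_noTri hcon] at h2
  omega

/-- the counting condition gives a thin 3-tree -/
theorem thin_tree3 {G : SimpleGraph V} (hK : ¬ IsMinor (⊤ : SimpleGraph (Fin 5)) G)
    (W : Finset V) (h4 : 4 ≤ W.card)
    (hc : ∀ X ⊆ W, comps G (W \ X) + numCl G X ≤ numFl G X + 1) :
    IsTree3 G W ∧ Thin G W := by
  have h3 : IsTree3 G W := tree3_of_sepTri hK W h4 (sepTri_of_count hc)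
  refine ⟨h3, ?_⟩
  intro T hTW hT
  have hTK : T ∈ Ks 3 G W := by
    unfold Ks
    rw [Finset.mem_filter, Finset.mem_powerset]
    exact ⟨hTW, hT⟩
  have h1 := comps_tree3 h3 hTK
  have h2 := hc T hTW
  rw [numFl_triangle hT] at h2
  omega

theorem thin_of_clique {G : SimpleGraph V} {s : Finset V} (hs : G.IsNClique 4 s) : Thin G s := by
  intro T hT hT3
  have hsub : s.filter (fun v => ∀ t ∈ T, G.Adj v t) ⊆ s \ T := by
    intro v hv
    rw [Finset.mem_filter] at hv
    rw [Finset.mem_sdiff]
    exact ⟨hv.1, fun hvT => (G.loopless.irrefl v) (hv.2 v hvT)⟩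
  have h1 := Finset.card_le_card hsub
  rw [Finset.card_sdiff_of_subset hT, hs.card_eq, hT3.card_eq] at h1
  omega

/-- exact value for graphs without a complete minor on five vertices -/
theorem value_noK5 {G : SimpleGraph V} (hK : ¬ IsMinor (⊤ : SimpleGraph (Fin 5)) G)
    (h4 : ¬ G.CliqueFree 4) :
    IsGreatest {k | ∃ W : Finset V, IsTree3 G W ∧ Thin G W ∧ k = W.card}
      (dimMink (Z G) + 1) := by
  have hub : ∀ W : Finset V, IsTree3 G W → Thin G W → W.card ≤ dimMink (Z G) + 1 :=
    fun W hW ht => lower (le_refl G) hW ht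
  constructor
  · obtain ⟨s, hs⟩ : ∃ s : Finset V, G.IsNClique 4 s := by
      by_contra hcon
      push Not at hcon
      exact h4 hcon
    have h4le : 4 ≤ dimMink (Z G) + 1 := by
      have := hub s (IsTree3.base s hs) (thin_of_clique hs)
      rwa [hs.card_eq] at this
    have hbot : G ≠ ⊥ := by
      rintro rfl
      have h1 : 1 < s.card := by rw [hs.card_eq]; norm_num
      obtain ⟨a, ha, b, hb, hab⟩ := Finset.one_lt_card.mp h1
      exact (hs.isClique ha hb hab)
    obtain ⟨W, hW1, hW2⟩ := upper_bound hbot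
    obtain ⟨hT, hTh⟩ := thin_tree3 hK W (h4le.trans hW1) hW2
    exact ⟨W, hT, hTh, le_antisymm hW1 (hub W hT hTh)⟩
  · rintro k ⟨W, hW, ht, rfl⟩
    exact hub W hW ht

/-- without a complete bipartite minor on three and three vertices every set is thin -/
theorem thin_of_noK33 {G : SimpleGraph V}
    (hK : ¬ IsMinor (completeBipartiteGraph (Fin 3) (Fin 3)) G) (W : Finset V) : Thin G W := by
  intro T hTW hT
  by_contra hcon
  push Not at hcon
  obtain ⟨S, hS, hSc⟩ := Finset.exists_subset_card_eq
    (s := W.filter (fun v => ∀ t ∈ T, G.Adj v t)) (n := 3) (by omega)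
  have hadj : ∀ v ∈ S, ∀ t ∈ T, G.Adj v t := fun v hv => (Finset.mem_filter.1 (hS hv)).2
  apply hK
  let e : Fin 3 ≃ T := (Finset.equivFinOfCardEq hT.card_eq).symm
  let f : Fin 3 ≃ S := (Finset.equivFinOfCardEq hSc).symm
  refine ⟨fun u => Sum.elim (fun i => {((e i : T) : V)}) (fun i => {((f i : S) : V)}) u, ?_, ?_, ?_⟩
  · intro u
    have hsing : ∀ a : V, (G.induce ({a} : Set V)).Connected := by
      intro a
      have := connected_of_conn (conn_singleton G a)
      rwa [Finset.coe_singleton] at this
    rcases u with i | i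
    · exact hsing _
    · exact hsing _
  · rintro (i | i) (j | j) hij
    · simp only [Sum.elim_inl, Set.disjoint_singleton]
      intro h
      exact hij (congrArg Sum.inl (e.injective (Subtype.ext h)))
    · simp only [Sum.elim_inl, Sum.elim_inr, Set.disjoint_singleton]
      exact (hadj _ (f j).2 _ (e i).2).ne.symm
    · simp only [Sum.elim_inl, Sum.elim_inr, Set.disjoint_singleton]
      exact (hadj _ (f i).2 _ (e j).2).ne
    · simp only [Sum.elim_inr, Set.disjoint_singleton]
      intro h
      exact hij (congrArg Sum.inr (f.injective (Subtype.ext h)))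
  · rintro (i | i) (j | j) hij
    · simp [completeBipartiteGraph] at hij
    · exact ⟨_, Set.mem_singleton _, _, Set.mem_singleton _, (hadj _ (f j).2 _ (e i).2).symm⟩
    · exact ⟨_, Set.mem_singleton _, _, Set.mem_singleton _, hadj _ (f i).2 _ (e j).2⟩
    · simp [completeBipartiteGraph] at hij

/-- exact value for planar graphs (no complete minor on five vertices and no complete bipartite
minor on three and three vertices) -/
theorem value_planar {G : SimpleGraph V} (hK : ¬ IsMinor (⊤ : SimpleGraph (Fin 5)) G)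
    (hK' : ¬ IsMinor (completeBipartiteGraph (Fin 3) (Fin 3)) G) (h4 : ¬ G.CliqueFree 4) :
    IsGreatest {k | ∃ W : Finset V, IsTree3 G W ∧ k = W.card} (dimMink (Z G) + 1) := by
  obtain ⟨h1, h2⟩ := value_noK5 hK h4
  constructor
  · obtain ⟨W, hW, _, h⟩ := h1
    exact ⟨W, hW, h⟩
  · rintro k ⟨W, hW, rfl⟩
    exact h2 ⟨W, hW, thin_of_noK33 hK' W, rfl⟩

end MK
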