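import Pool.Agent.MK.Defs

/-!
# Graphs without a complete minor on five vertices whose separators contain triangles
-/

open scoped Classical
open Finset

namespace MK

open MZ

variable {V : Type} [Fintype V]

/-- `(A, B)` is a separation of `W` with separator `X` -/
def Sepn (G : SimpleGraph V) (W X A B : Finset V) : Prop :=
  X ⊆ W ∧ A.Nonempty ∧ B.Nonempty ∧ Disjoint A B ∧ A ∪ B = W \ X ∧ ∀ a ∈ A, ∀ b ∈ B, ¬ G.Adj a b

/-- every separator of `W` contains a triangle -/
def SepTri (G : SimpleGraph V) (W : Finset V) : Prop :=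
  ∀ X A B, Sepn G W X A B → ∃ T ⊆ X, G.IsNClique 3 T

/-- connectedness in terms of cuts -/
def Conn (G : SimpleGraph V) (A : Finset V) : Prop :=
  A.Nonempty ∧ ∀ C D : Finset V, C.Nonempty → D.Nonempty → Disjoint C D → C ∪ D = A →
    ∃ c ∈ C, ∃ d ∈ D, G.Adj c d

theorem connected_of_conn {G : SimpleGraph V} {A : Finset V} (h : Conn G A) :
    (G.induce ((A : Finset V) : Set V)).Connected := by
  obtain ⟨⟨a, ha⟩, hc⟩ := h
  have haA : a ∈ ((A : Finset V) : Set V) := by exact_mod_cast ha
  rw [SimpleGraph.connected_iff_exists_forall_reachable]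
  refine ⟨⟨a, haA⟩, ?_⟩
  intro w
  by_contra hw
  set C : Finset V := A.filter (fun v => ∃ h : v ∈ ((A : Finset V) : Set V),
    (G.induce ((A : Finset V) : Set V)).Reachable ⟨a, haA⟩ ⟨v, h⟩) with hC
  have hCA : C ⊆ A := Finset.filter_subset _ _
  have haC : a ∈ C := Finset.mem_filter.2 ⟨ha, haA, SimpleGraph.Reachable.refl _⟩
  have hwD : (w : V) ∈ A \ C := by
    refine Finset.mem_sdiff.2 ⟨by exact_mod_cast w.2, ?_⟩
    intro h
    obtain ⟨_, h2⟩ := (Finset.mem_filter.1 h).2
    exact hw h2
  obtain ⟨c, hc1, d, hd, hcd⟩ := hc C (A \ C) ⟨a, haC⟩ ⟨w, hwD⟩ Finset.disjoint_sdiff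
    (Finset.union_sdiff_of_subset hCA)
  obtain ⟨hcA, hcr⟩ := (Finset.mem_filter.1 hc1).2
  have hdA : d ∈ ((A : Finset V) : Set V) := by
    exact_mod_cast (Finset.mem_sdiff.1 hd).1
  apply (Finset.mem_sdiff.1 hd).2
  refine Finset.mem_filter.2 ⟨(Finset.mem_sdiff.1 hd).1, hdA, ?_⟩
  refine hcr.trans (SimpleGraph.Adj.reachable ?_)
  exact hcd

theorem conn_singleton (G : SimpleGraph V) (a : V) : Conn G {a} := by
  refine ⟨Finset.singleton_nonempty a, ?_⟩
  intro C D hC hD hCD hu
  exfalso
  obtain ⟨c, hc⟩ := hC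
  obtain ⟨d, hd⟩ := hD
  have h1 : c ∈ ({a} : Finset V) := hu ▸ Finset.mem_union_left _ hc
  have h2 : d ∈ ({a} : Finset V) := hu ▸ Finset.mem_union_right _ hd
  rw [Finset.mem_singleton] at h1 h2
  subst h1
  subst h2
  exact Finset.disjoint_left.1 hCD hc hd

theorem conn_insert {G : SimpleGraph V} {A : Finset V} (h : Conn G A) {w b : V} (hb : b ∈ A)
    (hwb : G.Adj w b) : Conn G (insert w A) := by
  by_cases hwA : w ∈ A
  · rwa [Finset.insert_eq_of_mem hwA]
  refine ⟨Finset.insert_nonempty _ _, ?_⟩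
  -- we may assume that `w` is in the first part
  have key : ∀ C D : Finset V, C.Nonempty → D.Nonempty → Disjoint C D → C ∪ D = insert w A →
      w ∈ C → ∃ c ∈ C, ∃ d ∈ D, G.Adj c d := by
    intro C D hC hD hCD hu hw
    by_cases hbD : b ∈ D
    · exact ⟨w, hw, b, hbD, hwb⟩
    have hbC : b ∈ C.erase w := by
      have : b ∈ C ∪ D := hu ▸ Finset.mem_insert_of_mem hb
      rcases Finset.mem_union.1 this with h1 | h1
      · exact Finset.mem_erase.2 ⟨hwb.ne.symm, h1⟩
      · exact absurd h1 hbD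
    have hwD : w ∉ D := fun h => Finset.disjoint_left.1 hCD hw h
    obtain ⟨c, hc, d, hd, hcd⟩ := h.2 (C.erase w) D ⟨b, hbC⟩ hD
      (hCD.mono_left (Finset.erase_subset _ _)) (by
        ext x
        rw [Finset.mem_union, Finset.mem_erase]
        constructor
        · rintro (⟨hx, hxC⟩ | hxD)
          · have : x ∈ insert w A := hu ▸ Finset.mem_union_left _ hxC
            exact (Finset.mem_insert.1 this).resolve_left hx
          · have : x ∈ insert w A := hu ▸ Finset.mem_union_right _ hxD
            refine (Finset.mem_insert.1 this).resolve_left ?_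
            rintro rfl
            exact hwD hxD
        · intro hxA
          have hxw : x ≠ w := by
            rintro rfl
            exact hwA hxA
          have : x ∈ C ∪ D := hu ▸ Finset.mem_insert_of_mem hxA
          rcases Finset.mem_union.1 this with h1 | h1
          · exact Or.inl ⟨hxw, h1⟩
          · exact Or.inr h1)
    exact ⟨c, Finset.mem_of_mem_erase hc, d, hd, hcd⟩
  intro C D hC hD hCD hu
  have hw : w ∈ C ∪ D := hu ▸ Finset.mem_insert_self _ _
  rcases Finset.mem_union.1 hw with h1 | h1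
  · exact key C D hC hD hCD hu h1
  · obtain ⟨d, hd, c, hc, hdc⟩ := key D C hD hC hCD.symm (by rw [Finset.union_comm]; exact hu) h1
    exact ⟨c, hc, d, hd, hdc.symm⟩

/-- five pairwise disjoint and pairwise adjacent connected sets -/
theorem minor_of_five {G : SimpleGraph V} (B : Fin 5 → Finset V) (hc : ∀ i, Conn G (B i))
    (hd : ∀ i j, i < j → Disjoint (B i) (B j))
    (ha : ∀ i j, i < j → ∃ a ∈ B i, ∃ b ∈ B j, G.Adj a b) :
    IsMinor (⊤ : SimpleGraph (Fin 5)) G := by
  refine ⟨fun i => ((B i : Finset V) : Set V), fun i => connected_of_conn (hc i), ?_, ?_⟩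
  · intro i j hij
    rw [Finset.disjoint_coe]
    rcases lt_or_gt_of_ne hij with h | h
    · exact hd i j h
    · exact (hd j i h).symm
  · intro i j hij
    rw [SimpleGraph.top_adj] at hij
    rcases lt_or_gt_of_ne hij with h | h
    · obtain ⟨a, ha1, b, hb, hab⟩ := ha i j h
      exact ⟨a, by exact_mod_cast ha1, b, by exact_mod_cast hb, hab⟩
    · obtain ⟨a, ha1, b, hb, hab⟩ := ha j i h
      exact ⟨b, by exact_mod_cast hb, a, by exact_mod_cast ha1, hab.symm⟩

theorem cliqueFree_five {G : SimpleGraph V} (hK : ¬ IsMinor (⊤ : SimpleGraph (Fin 5)) G) :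
    G.CliqueFree 5 := by
  intro s hs
  apply hK
  have e : Fin 5 ≃ s := (Finset.equivFinOfCardEq hs.card_eq).symm
  apply minor_of_five (fun i => {(e i : V)}) (fun i => conn_singleton G _)
  · intro i j hij
    rw [Finset.disjoint_singleton]
    intro h
    exact hij.ne (e.injective (Subtype.ext h))
  · intro i j hij
    refine ⟨e i, Finset.mem_singleton_self _, e j, Finset.mem_singleton_self _, ?_⟩
    apply hs.isClique (e i).2 (e j).2
    intro h
    exact hij.ne (e.injective (Subtype.ext h))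

end MK
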